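import Pool.Agent.Y716.C.Main
import Pool.Agent.Y697.C13.Main

/-!
# Smooth complete intersections
-/

namespace Pool.Agent.Y716.C

open Pool.Agent.Y716.Q Filter Topology Pool.Agent.Y697.C13 Pool.Agent.Y487.C8

theorem ratio_aux {T a b a' b' ns : ℕ → ℝ} {c : ℝ} (hc : 0 < c) (hT : ∀ᶠ H in atTop, 0 < T H)
    (hns0 : ∀ H, 0 ≤ ns H) (hns : ∀ ε : ℝ, 0 < ε → ∀ᶠ H in atTop, ns H ≤ ε * T H)
    (hb : ∀ᶠ H in atTop, c * T H ≤ b H) (hab : ∀ H, a' H ≤ b' H) (hbb : ∀ H, b' H ≤ b H)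
    (ha : ∀ H, a H - ns H ≤ a' H) (ha0 : ∀ H, 0 ≤ a' H)
    (h : Tendsto (fun H => a H / b H) atTop (𝓝 1)) :
    Tendsto (fun H => a' H / b' H) atTop (𝓝 1) := by
  have h1 : Tendsto (fun H => ns H / b H) atTop (𝓝 0) := by
    rw [Metric.tendsto_nhds]
    intro ε hε
    filter_upwards [hT, hb, hns (ε / 2 * c) (by positivity)] with H h1 h2 h3
    have hb0 : 0 < b H := lt_of_lt_of_le (by positivity) h2
    rw [Real.dist_eq, sub_zero, abs_of_nonneg (div_nonneg (hns0 H) hb0.le), div_lt_iff₀ hb0]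
    have h4 : ε / 2 * (c * T H) ≤ ε / 2 * b H := mul_le_mul_of_nonneg_left h2 (by positivity)
    have h5 : 0 < ε / 2 * b H := by positivity
    linarith
  have h2 : Tendsto (fun H => a H / b H - ns H / b H) atTop (𝓝 1) := by
    have := h.sub h1
    rwa [sub_zero] at this
  refine tendsto_of_tendsto_of_tendsto_of_le_of_le' h2 tendsto_const_nhds ?_ ?_
  · filter_upwards [hT, hb] with H h3 h4
    have hb0 : 0 < b H := lt_of_lt_of_le (by positivity) h4
    rw [← sub_div]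
    have h5 : (a H - ns H) / b H ≤ a' H / b H := div_le_div_of_nonneg_right (ha H) hb0.le
    refine h5.trans ?_
    rcases eq_or_lt_of_le ((ha0 H).trans (hab H)) with h6 | h6
    · have h7 : a' H = 0 := le_antisymm (by rw [h6]; exact hab H) (ha0 H)
      rw [h7, zero_div, zero_div]
    · exact div_le_div_of_nonneg_left (ha0 H) h6 (hbb H)
  · filter_upwards with H
    exact div_le_one_of_le₀ (hab H) ((ha0 H).trans (hab H))

theorem card_filter_le_add' {α : Type*} (s : Finset α) (p q r : α → Prop) {_ : DecidablePred p}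
    {_ : DecidablePred q} {_ : DecidablePred r} (h : ∀ x ∈ s, p x → q x ∨ r x) :
    ((s.filter p).card : ℝ) ≤ (s.filter q).card + (s.filter r).card := by
  classical
  have h1 : s.filter p ⊆ s.filter q ∪ s.filter r := by
    intro x hx
    rw [Finset.mem_filter] at hx
    rw [Finset.mem_union, Finset.mem_filter, Finset.mem_filter]
    rcases h x hx.1 hx.2 with h2 | h2
    · left; exact ⟨hx.1, h2⟩
    · right; exact ⟨hx.1, h2⟩
  have h2 := (Finset.card_le_card h1).trans (Finset.card_union_le _ _)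
  exact_mod_cast h2

/-- passage to the smooth systems -/
theorem smooth_ratio (ι : Type*) [Fintype ι] {s : ℕ} (e : Fin s → ℕ) (hpos : PosStmtS ι e)
    (P : ℕ → (Fin s → MvPolynomial ι ℤ) → Prop)
    (hP : ∀ H f, (∀ j, (f j).IsHomogeneous (e j + 2)) → P H f → ElsS f)
    (h : Tendsto (fun H : ℕ =>
      (({f : Fin s → MvPolynomial ι ℤ | (∀ j, (f j).IsHomogeneous (e j + 2) ∧
          ∀ m, |(f j).coeff m| ≤ (H : ℤ)) ∧ P H f} : Set _).ncard : ℝ) /
      (({f : Fin s → MvPolynomial ι ℤ | (∀ j, (f j).IsHomogeneous (e j + 2) ∧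
          ∀ m, |(f j).coeff m| ≤ (H : ℤ)) ∧ ElsS f} : Set _).ncard : ℝ)) atTop (𝓝 1)) :
    Tendsto (fun H : ℕ =>
      (({f : Fin s → MvPolynomial ι ℤ | (∀ j, (f j).IsHomogeneous (e j + 2) ∧
          ∀ m, |(f j).coeff m| ≤ (H : ℤ)) ∧ SmoothS f ∧ P H f} : Set _).ncard : ℝ) /
      (({f : Fin s → MvPolynomial ι ℤ | (∀ j, (f j).IsHomogeneous (e j + 2) ∧
          ∀ m, |(f j).coeff m| ≤ (H : ℤ)) ∧ SmoothS f ∧ ElsS f} : Set _).ncard : ℝ))
      atTop (𝓝 1) := by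
  classical
  obtain ⟨c, hc0, H₁, hH₁⟩ := hpos
  have hmem : ∀ (H : ℕ) (f : Fin s → MvPolynomial ι ℤ), f ∈ sysZ ι e (H : ℝ) →
      ∀ j, (f j).IsHomogeneous (e j + 2) := fun H f hf j => (mem_sysZ.mp hf j).1
  simp only [ncard_eq_filterS] at h ⊢
  refine ratio_aux (T := fun H : ℕ => ((sysZ ι e (H : ℝ)).card : ℝ))
    (a := fun H : ℕ => (((sysZ ι e (H : ℝ)).filter (P H)).card : ℝ))
    (b := fun H : ℕ => (((sysZ ι e (H : ℝ)).filter ElsS).card : ℝ))
    (ns := fun H : ℕ => (((sysZ ι e (H : ℝ)).filter (fun f => ¬ SmoothS f)).card : ℝ))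
    hc0 ?_ (fun H => Nat.cast_nonneg _) ?_ ?_ (fun H => ?_) (fun H => ?_) (fun H => ?_)
    (fun H => Nat.cast_nonneg _) h
  · filter_upwards with H
    rw [card_sysZ]
    push_cast
    apply Finset.prod_pos
    intro j _
    exact_mod_cast card_forms_pos (ι := ι) (e j + 2) (Nat.cast_nonneg H)
  · intro ε hε
    obtain ⟨H₀, hH₀⟩ := smooth_dense ι e ε hε
    filter_upwards [eventually_ge_atTop ⌈H₀⌉₊] with H hH
    have h1 := hH₀ (H : ℝ) ((Nat.le_ceil H₀).trans (by exact_mod_cast hH))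
    convert h1
  · filter_upwards [eventually_ge_atTop ⌈H₁⌉₊] with H hH
    have h1 := hH₁ (H : ℝ) ((Nat.le_ceil H₁).trans (by exact_mod_cast hH))
    refine h1.trans ?_
    exact card_filter_le' _ _ _ (fun f _ hf => sol_elsS hf)
  · exact card_filter_le' _ _ _ (fun f hf h => ⟨h.1, hP H f (hmem H f hf) h.2⟩)
  · exact card_filter_le' _ _ _ (fun f hf h => h.2)
  · rw [sub_le_iff_le_add]
    refine card_filter_le_add' _ (P H) (fun f => SmoothS f ∧ P H f) (fun f => ¬ SmoothS f)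
      (fun f _ hf => ?_)
    by_cases hs : SmoothS f
    · left; exact ⟨hs, hf⟩
    · right; exact hs

section
variable (ι : Type*) [Fintype ι] {s : ℕ} (hs : 1 ≤ s) (h2s : 2 * s + 2 ≤ Fintype.card ι)
  (e : Fin s → ℕ) (hdeg : ∑ j, (e j + 2) + 1 ≤ Fintype.card ι)

include hs h2s hdeg

/-- The Hasse principle holds for almost all smooth complete intersections. -/
theorem hp_smooth : Tendsto (fun H : ℕ =>
      (({f : Fin s → MvPolynomial ι ℤ | (∀ j, (f j).IsHomogeneous (e j + 2) ∧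
          ∀ m, |(f j).coeff m| ≤ (H : ℤ)) ∧ SmoothS f ∧
          ∃ x : ι → ℚ, x ≠ 0 ∧ ∀ j, MvPolynomial.aeval x (f j) = 0} : Set _).ncard : ℝ) /
      (({f : Fin s → MvPolynomial ι ℤ | (∀ j, (f j).IsHomogeneous (e j + 2) ∧
          ∀ m, |(f j).coeff m| ≤ (H : ℤ)) ∧ SmoothS f ∧ ElsS f} : Set _).ncard : ℝ))
      atTop (𝓝 1) :=
  smooth_ratio ι e (pos_systems ι hs h2s e hdeg)
    (fun _ f => ∃ x : ι → ℚ, x ≠ 0 ∧ ∀ j, MvPolynomial.aeval x (f j) = 0)
    (fun _ f hf h => sol_elsS ((solQ_iffS hf).mp h)) (hp_systems ι hs h2s e hdeg)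

/-- Weak approximation holds for almost all smooth complete intersections. -/
theorem wa_smooth : ∃ m : ℕ → ℕ, Tendsto m atTop atTop ∧
    Tendsto (fun H : ℕ =>
      (({f : Fin s → MvPolynomial ι ℤ | (∀ j, (f j).IsHomogeneous (e j + 2) ∧
          ∀ m, |(f j).coeff m| ≤ (H : ℤ)) ∧ SmoothS f ∧ ElsS f ∧
          WeakApproxS (m H) f} : Set _).ncard : ℝ) /
      (({f : Fin s → MvPolynomial ι ℤ | (∀ j, (f j).IsHomogeneous (e j + 2) ∧
          ∀ m, |(f j).coeff m| ≤ (H : ℤ)) ∧ SmoothS f ∧ ElsS f} : Set _).ncard : ℝ))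
      atTop (𝓝 1) := by
  obtain ⟨m, hm, h⟩ := wa_systems ι hs h2s e hdeg
  exact ⟨m, hm, smooth_ratio ι e (pos_systems ι hs h2s e hdeg)
    (fun H f => ElsS f ∧ WeakApproxS (m H) f) (fun H f _ h => h.1) h⟩

end

end Pool.Agent.Y716.C
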