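import Pool.Agent.Y716.Q.WA2

/-!
# Systems of integral forms: definitions and statements of the parts

`s` forms of degrees `e j + 2` in the variables indexed by `ι`, coefficients bounded by `H`.
-/

namespace Pool.Agent.Y716.C

open Pool.Agent.Y716.Q

/-- systems of forms -/
noncomputable def sysZ (ι : Type*) [Fintype ι] {s : ℕ} (e : Fin s → ℕ) (R : ℝ) :
    Finset (Fin s → MvPolynomial ι ℤ) :=
  Fintype.piFinset (fun j => formsZ ι (e j + 2) R)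

section
variable {ι : Type*} {s : ℕ}

/-- Jacobian matrix -/
noncomputable def jac (f : Fin s → MvPolynomial ι ℤ) (x : ι → ℤ) (j : Fin s) (i : ι) : ℤ :=
  MvPolynomial.eval x (MvPolynomial.pderiv i (f j))

/-- members of the class -/
noncomputable def memS (fc : Fin s → MvPolynomial ι ℤ) (S J : ℕ)
    (g : Fin s → MvPolynomial ι ℤ) : Fin s → MvPolynomial ι ℤ := fun j => mem' (fc j) S J (g j)

variable [Fintype ι]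

theorem mem_sysZ {e : Fin s → ℕ} {R : ℝ} {f : Fin s → MvPolynomial ι ℤ} :
    f ∈ sysZ ι e R ↔ ∀ j, IsF (e j + 2) R (f j) := by
  unfold sysZ
  rw [Fintype.mem_piFinset]
  simp only [mem_formsZ]

theorem card_sysZ (e : Fin s → ℕ) (R : ℝ) :
    (sysZ ι e R).card = ∏ j, (formsZ ι (e j + 2) R).card := by
  unfold sysZ
  rw [Fintype.card_piFinset]

/-- the `p`-adic data of a class -/
structure PDataS (w : ℕ) (fc : Fin s → MvPolynomial ι ℤ) (S J : ℕ) (xc : ι → ℤ) : Prop where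
  hS : 0 < S
  hJ : 0 < J
  hJS : J ∣ S
  hval : ∀ j, ((S * J : ℕ) : ℤ) ∣ MvPolynomial.eval xc (fc j)
  hPJ : ∀ p : ℕ, p.Prime → p ≤ w → p * J ∣ S
  hsurj : ∀ p : ℕ, p.Prime → p ≤ w → ∀ b : Fin s → ℤ, ∃ z : ι → ℤ, ∀ j,
    ((p * J : ℕ) : ℤ) ∣ ∑ i, jac fc xc j i * z i - J * b j
  hprim : ∀ p : ℕ, p.Prime → p ≤ w → ∃ i, ¬ (p : ℤ) ∣ xc i
  hSW : ∀ p : ℕ, p.Prime → p ∣ S → p ≤ w

/-- the real data of a class: `ξ` is almost a zero, `a` chooses `s` variables in which the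
Jacobian matrix is invertible, with inverse matrix `Li` (after division by `H`). -/
structure RDataS (e : Fin s → ℕ) (H γ η : ℝ) (fc : Fin s → MvPolynomial ι ℤ) (ξ : ι → ℝ)
    (a : Fin s → ι) (Li : Matrix (Fin s) (Fin s) ℝ) : Prop where
  hform : ∀ j, IsF (e j + 2) (2 * H) (fc j)
  hξ : ∀ i, |ξ i| ≤ 1
  hξr : ∃ r, ξ r = 1
  hfξ : ∀ j, |MvPolynomial.aeval ξ (fc j)| ≤ (mons ι (e j + 2)).card * (η * H)
  ha : Function.Injective a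
  hLi : Li * (Matrix.of fun j j' : Fin s =>
    (MvPolynomial.aeval ξ (MvPolynomial.pderiv (a j') (fc j)) : ℝ) / H) = 1
  hLiγ : ∀ j j', |Li j j'| ≤ 1 / γ

open scoped Classical in
/-- half-widths of the box -/
noncomputable def wdS (a : Fin s → ι) (ρ ρ' : ℝ) (i : ι) : ℝ := if ∃ j, a j = i then ρ' else ρ

/-- the real box -/
def InBoxS (P : ℝ) (ξ : ι → ℝ) (a : Fin s → ι) (ρ ρ' : ℝ) (x : ι → ℝ) : Prop :=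
  ∀ i, |x i - P * ξ i| ≤ P * wdS a ρ ρ' i

/-- The number of lattice points of the box in a residue class modulo `M` at which all the
forms are small is `V / M ^ k`, up to a factor `1 ± τ`. -/
def SlabCount (V τ M₀ : ℝ) (Δ : Fin s → ℝ) (P : ℝ) (ξ : ι → ℝ) (a : Fin s → ι) (ρ ρ' : ℝ)
    (f : Fin s → MvPolynomial ι ℤ) : Prop :=
  ∀ (M : ℕ), 1 ≤ M → (M : ℝ) ≤ M₀ → ∀ (c : ι → ℤ) (X : Finset (ι → ℤ)),
    (∀ x, x ∈ X ↔ (∀ i, (M : ℤ) ∣ x i - c i) ∧ InBoxS P ξ a ρ ρ' (fun i => (x i : ℝ)) ∧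
      ∀ j, |((MvPolynomial.eval x (f j) : ℤ) : ℝ)| ≤ Δ j) →
    (1 - τ) * (V / (M : ℝ) ^ Fintype.card ι) ≤ (X.card : ℝ) ∧
      (X.card : ℝ) ≤ (1 + τ) * (V / (M : ℝ) ^ Fintype.card ι)

open scoped Classical in
/-- Lattice points in a slab given by an almost linear map (job C3a): `F` is almost linear with
matrix `L` on the cube of radius `2 r'` around `z`, the minor of `L` with columns `a` has inverse
`Li`. -/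
def SlabLemma (ι : Type*) [Fintype ι] (s : ℕ) : Prop :=
  ∀ τ : ℝ, 0 < τ → τ ≤ 1 / 2 → ∃ θ : ℝ, 0 < θ ∧ θ ≤ 1 ∧ ∀ (C γ : ℝ), 1 ≤ C → 0 < γ → γ ≤ 1 →
    ∃ κ : ℝ, 0 < κ ∧ κ ≤ 1 ∧ ∀ (F : (ι → ℝ) → Fin s → ℝ) (L : Matrix (Fin s) ι ℝ)
      (a : Fin s → ι) (Li : Matrix (Fin s) (Fin s) ℝ) (z : ι → ℝ) (r r' : ℝ) (W : Fin s → ℝ),
    Function.Injective a → 0 < r → r ≤ κ * r' → (∀ j, 0 < W j ∧ W j ≤ κ * r') →
    (∀ j, |F z j| ≤ κ * r') → (∀ j i, |L j i| ≤ C) →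
    Li * (Matrix.of fun j j' : Fin s => L j (a j')) = 1 → (∀ j j', |Li j j'| ≤ 1 / γ) →
    (∀ x y : ι → ℝ, (∀ i, |x i - z i| ≤ 2 * r') → (∀ i, |y i - z i| ≤ 2 * r') →
      ∀ D : ℝ, (∀ i, |x i - y i| ≤ D) →
      ∀ j, |F x j - F y j - ∑ i, L j i * (x i - y i)| ≤ θ * γ * D) →
    ∀ M : ℕ, 1 ≤ M → (M : ℝ) ≤ κ * r → (∀ j, (M : ℝ) ≤ κ * W j) →
    ∀ (c : ι → ℤ) (X : Finset (ι → ℤ)),
    (∀ x, x ∈ X ↔ (∀ i, (M : ℤ) ∣ x i - c i) ∧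
      (∀ i, |(x i : ℝ) - z i| ≤ if ∃ j, a j = i then r' else r) ∧
      ∀ j, |F (fun i => (x i : ℝ)) j| ≤ W j) →
    (1 - τ) * ((2 * r) ^ (Fintype.card ι - s) * (∏ j, (2 * W j)) * |Li.det| /
      (M : ℝ) ^ Fintype.card ι) ≤ (X.card : ℝ) ∧
    (X.card : ℝ) ≤ (1 + τ) * ((2 * r) ^ (Fintype.card ι - s) * (∏ j, (2 * W j)) * |Li.det| /
      (M : ℝ) ^ Fintype.card ι)

/-- Real part (job C3b). -/
def RealStmt (ι : Type*) [Fintype ι] {s : ℕ} (e : Fin s → ℕ) : Prop :=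
  ∀ (τ γ η₀ : ℝ), 0 < τ → τ ≤ 1 / 2 → 0 < γ → γ ≤ 1 → 0 < η₀ →
    ∃ ρ ρ' η θ : ℝ, 0 < ρ ∧ ρ ≤ ρ' ∧ ρ' ≤ 1 / 2 ∧ ρ' ≤ η₀ ∧ 0 < η ∧ η ≤ 1 ∧ η ≤ η₀ ∧ 0 < θ ∧
    ∀ δ : ℝ, 0 < δ → δ ≤ 1 → ∀ (H P : ℝ) (fc : Fin s → MvPolynomial ι ℤ) (ξ : ι → ℝ)
      (a : Fin s → ι) (Li : Matrix (Fin s) (Fin s) ℝ), 0 < H → 0 < P →
      RDataS e H γ η fc ξ a Li → ∀ h : Fin s → MvPolynomial ι ℤ,
      (∀ j, IsF (e j + 2) (2 * η * H) (h j)) →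
      SlabCount ((2 * ρ * P) ^ (Fintype.card ι - s) * (2 * δ * η * P) ^ s * |Li.det|) τ
        (θ * δ * P) (fun j => δ * (η * H) * P ^ (e j + 2)) P ξ a ρ ρ' (fun j => fc j + h j)

open scoped Classical in
/-- number of solutions of the linearised congruences -/
noncomputable def nuJ (fc : Fin s → MvPolynomial ι ℤ) (J : ℕ) (xc : ι → ℤ) : ℕ :=
  ((Fintype.piFinset (fun _ : ι => Finset.range J)).filter
    (fun z : ι → ℕ => ∀ j, (J : ℤ) ∣ ∑ i, jac fc xc j i * (z i : ℤ))).card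

theorem finite_boxS (P : ℝ) (ξ : ι → ℝ) (a : Fin s → ι) (ρ ρ' : ℝ) (S J : ℕ) (xc : ι → ℤ)
    (fc : Fin s → MvPolynomial ι ℤ) :
    {x : ι → ℤ | InBoxS P ξ a ρ ρ' (fun i => (x i : ℝ)) ∧ (∀ i, (S : ℤ) ∣ x i - xc i) ∧
      ∀ j, ((S * J : ℕ) : ℤ) ∣ MvPolynomial.eval x (fc j)}.Finite := by
  classical
  apply Set.Finite.subset (Finset.finite_toSet (Fintype.piFinset (fun i =>
    ivl (P * ξ i - P * wdS a ρ ρ' i) (P * ξ i + P * wdS a ρ ρ' i))))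
  intro x hx
  rw [Finset.mem_coe, Fintype.mem_piFinset]
  intro i
  have h := abs_le.mp (hx.1 i)
  rw [mem_ivl]
  constructor
  · linarith [h.1]
  · linarith [h.2]

/-- the test box of a class -/
noncomputable def boxS (P : ℝ) (ξ : ι → ℝ) (a : Fin s → ι) (ρ ρ' : ℝ) (S J : ℕ) (xc : ι → ℤ)
    (fc : Fin s → MvPolynomial ι ℤ) : Finset (ι → ℤ) :=
  (finite_boxS P ξ a ρ ρ' S J xc fc).toFinset

theorem mem_boxS {P : ℝ} {ξ : ι → ℝ} {a : Fin s → ι} {ρ ρ' : ℝ} {S J : ℕ} {xc : ι → ℤ}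
    {fc : Fin s → MvPolynomial ι ℤ} {x : ι → ℤ} : x ∈ boxS P ξ a ρ ρ' S J xc fc ↔
      InBoxS P ξ a ρ ρ' (fun i => (x i : ℝ)) ∧ (∀ i, (S : ℤ) ∣ x i - xc i) ∧
      ∀ j, ((S * J : ℕ) : ℤ) ∣ MvPolynomial.eval x (fc j) := by
  unfold boxS
  rw [Set.Finite.mem_toFinset]
  rfl

open scoped Classical in
/-- vectors of the test box at which the forms `f` are small at all places -/
noncomputable def locSetS (P : ℝ) (ξ : ι → ℝ) (a : Fin s → ι) (ρ ρ' : ℝ) (S J : ℕ)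
    (xc : ι → ℤ) (fc f : Fin s → MvPolynomial ι ℤ) (K D : ℕ) (ζ : ι → ℤ) (Δ : Fin s → ℝ) :
    Finset (ι → ℤ) :=
  (boxS P ξ a ρ ρ' S J xc fc).filter (fun x => (∀ i, (D : ℤ) ∣ x i - ζ i) ∧
    ∀ j, ((S * J * K : ℕ) : ℤ) ∣ MvPolynomial.eval x (f j) ∧
      |((MvPolynomial.eval x (f j) : ℤ) : ℝ)| ≤ Δ j)

open scoped Classical in
/-- test set: primitive balanced vectors of the test box -/
noncomputable def testSetS (B a₀ P : ℝ) (ξ : ι → ℝ) (a : Fin s → ι) (ρ ρ' : ℝ) (S J : ℕ)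
    (xc : ι → ℤ) (fc : Fin s → MvPolynomial ι ℤ) : Finset (ι → ℤ) :=
  (boxS P ξ a ρ ρ' S J xc fc).filter (fun x => Sz B x ∧ Prim x ∧ Bal B a₀ x)

theorem mem_testSetS {B a₀ P : ℝ} {ξ : ι → ℝ} {a : Fin s → ι} {ρ ρ' : ℝ} {S J : ℕ}
    {xc : ι → ℤ} {fc : Fin s → MvPolynomial ι ℤ} {x : ι → ℤ} :
    x ∈ testSetS B a₀ P ξ a ρ ρ' S J xc fc ↔ x ∈ boxS P ξ a ρ ρ' S J xc fc ∧ Sz B x ∧ Prim x ∧
      Bal B a₀ x := by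
  classical
  unfold testSetS
  rw [Finset.mem_filter]

/-- `p`-adic part, upper bound (job C2). -/
def LocUpper (ι : Type*) [Fintype ι] (s : ℕ) : Prop :=
  ∀ (w : ℕ) (fc g : Fin s → MvPolynomial ι ℤ) (S J : ℕ) (xc : ι → ℤ), PDataS w fc S J xc →
    ∀ (V τ M₀ : ℝ) (Δ : Fin s → ℝ) (P : ℝ) (ξ : ι → ℝ) (a : Fin s → ι) (ρ ρ' : ℝ), 0 ≤ V →
    0 ≤ τ → SlabCount V τ M₀ Δ P ξ a ρ ρ' (memS fc S J g) →
    ∀ (N K : ℕ), K = (∏ p ∈ (Finset.range (w + 1)).filter Nat.Prime, p) ^ N →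
    ∀ D : ℕ, 0 < D → (∀ q : ℕ, q.Prime → q ≤ w → ¬ q ∣ D) →
    ((S * J * K * D : ℕ) : ℝ) ≤ M₀ → ∀ ζ : ι → ℤ,
    ((locSetS P ξ a ρ ρ' S J xc fc (memS fc S J g) K D ζ Δ).card : ℝ) ≤
      (1 + τ) * (nuJ fc J xc * V / ((S * J : ℕ) : ℝ) ^ Fintype.card ι) /
        ((K : ℝ) ^ s * (D : ℝ) ^ Fintype.card ι)

open scoped Classical in
/-- `p`-adic part, lower bound for the test set (job C2). -/
def TestLower (ι : Type*) [Fintype ι] (s : ℕ) : Prop :=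
  ∀ (w : ℕ) (fc g : Fin s → MvPolynomial ι ℤ) (S J : ℕ) (xc : ι → ℤ), 1 ≤ w →
    PDataS w fc S J xc →
    ∀ (V τ M₀ : ℝ) (Δ : Fin s → ℝ) (P : ℝ) (ξ : ι → ℝ) (a : Fin s → ι) (ρ ρ' a₀ : ℝ), 0 ≤ V →
    0 < P → 0 < ρ → ρ ≤ ρ' → ρ' ≤ 1 / 2 → (∀ i, |ξ i| ≤ 1) → (∃ r, ξ r = 1) →
    0 < τ → τ ≤ 1 / 2 → 1 / (w : ℝ) ≤ τ → SlabCount V τ M₀ Δ P ξ a ρ ρ' (memS fc S J g) →
    ∀ (N : ℕ), 1 ≤ N → ((S * J * N : ℕ) : ℝ) ≤ M₀ →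
    (6 * P) ^ Fintype.card ι / N ≤
      τ * (nuJ fc J xc * V / ((S * J : ℕ) : ℝ) ^ Fintype.card ι) →
    (∀ U : Finset (ι → ℤ), (∀ x ∈ U, Sz (2 * P) x ∧ Prim x ∧ ¬ Bal (2 * P) a₀ x) →
      (U.card : ℝ) ≤ τ * (nuJ fc J xc * V / ((S * J : ℕ) : ℝ) ^ Fintype.card ι)) →
    ((1 - τ) - (1 + τ) * τ - 2 * τ) * (nuJ fc J xc * V / ((S * J : ℕ) : ℝ) ^ Fintype.card ι) ≤
      (((testSetS (2 * P) a₀ P ξ a ρ ρ' S J xc fc).filter (fun x =>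
        ∀ j, |((MvPolynomial.eval x (memS fc S J g j) : ℤ) : ℝ)| ≤ Δ j)).card : ℝ)

/-- Tail of the second moment (job C1). -/
def TailStmt (ι : Type*) [Fintype ι] (s : ℕ) : Prop :=
  ∃ C : ℝ, 0 < C ∧ ∀ (B T : ℝ), 1 ≤ B → 1 ≤ T →
      ∀ (Tl : Finset ((ι → ℤ) × (ι → ℤ))) (τ : (ι → ℤ) × (ι → ℤ) → ℝ),
      (∀ p ∈ Tl, (∀ i, |(p.1 i : ℝ)| ≤ B) ∧ (∀ i, |(p.2 i : ℝ)| ≤ B) ∧
        (∃ i j, p.1 i * p.2 j - p.1 j * p.2 i ≠ 0) ∧ T < τ p ∧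
        ∃ (g : ℤ) (μ : ℝ), (∀ i j, g ∣ p.1 i * p.2 j - p.1 j * p.2 i) ∧
          (∀ i j, |((p.1 i * p.2 j - p.1 j * p.2 i : ℤ) : ℝ)| ≤ μ) ∧
          τ p * μ ≤ B ^ 2 * |(g : ℝ)|) →
      ∑ p ∈ Tl, τ p ^ s ≤ C * B ^ (2 * Fintype.card ι) / Real.sqrt T

/-- degenerate zeros modulo `Q` -/
def BadAtS (Q : ℕ) (f : Fin s → MvPolynomial ι ℤ) : Prop :=
  ∃ (r : ι) (x : ι → ℤ) (j₀ : Fin s) (l : Fin s → ℤ), x r = 1 ∧ l j₀ = 1 ∧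
    (∀ j, (Q : ℤ) ∣ MvPolynomial.eval x (f j)) ∧
    ∀ i, (Q : ℤ) ∣ ∑ j, l j * jac f x j i

/-- degenerate real zeros -/
def BadRS (γ H : ℝ) (f : Fin s → MvPolynomial ι ℤ) : Prop :=
  ∃ (r : ι) (ξ : ι → ℝ) (j₀ : Fin s) (l : Fin s → ℝ), ξ r = 1 ∧ (∀ i, |ξ i| ≤ 1) ∧ l j₀ = 1 ∧
    (∀ j, |l j| ≤ 1) ∧ (∀ j, |MvPolynomial.aeval ξ (f j)| ≤ γ * H) ∧
    ∀ i, |∑ j, l j * MvPolynomial.aeval ξ (MvPolynomial.pderiv i (f j))| ≤ γ * H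

open scoped Classical in
/-- Few systems are degenerate modulo `Q` (job C4). -/
def BadCountInt (ι : Type*) [Fintype ι] {s : ℕ} (e : Fin s → ℕ) : Prop :=
  ∀ (Q : ℕ), 1 ≤ Q → ∀ R : ℝ, 0 ≤ R →
    ((sysZ ι e R).filter (fun f => BadAtS Q f)).card * Q ≤
      Fintype.card ι * s * (sysZ ι e (R + Q)).card

open scoped Classical in
/-- Few systems are degenerate at a real zero (job C4). -/
def BadCountReal (ι : Type*) [Fintype ι] {s : ℕ} (e : Fin s → ℕ) : Prop :=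
  ∃ C : ℝ, 0 < C ∧ ∀ (γ R : ℝ), 0 < γ → γ ≤ 1 → 1 ≤ γ * R →
    (((sysZ ι e R).filter (fun f => BadRS γ R f)).card : ℝ) ≤
      C * γ * (sysZ ι e (2 * R)).card

/-- The `p`-adic data of a system without degenerate approximate zeros (job C5). -/
def StableStmt (ι : Type*) [Fintype ι] (s : ℕ) : Prop :=
  ∀ (w ℓ : ℕ), 1 ≤ ℓ → ∀ (f : Fin s → MvPolynomial ι ℤ) (N : ℕ) (c : ι → ℤ),
    (∀ p a : ℕ, p.Prime → p ^ (a + 1) ∣ N → p ≤ w ∧ a + 1 ≤ ℓ) →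
    (∀ p ∈ primesUpTo w, (∃ (r : ι) (x : ι → ℤ), x r = 1 ∧
      (∀ j, (p : ℤ) ^ (2 * ℓ + 1) ∣ MvPolynomial.eval x (f j)) ∧
      ∀ a : ℕ, p ^ a ∣ N → ∀ i, (p : ℤ) ^ a ∣ x i - c i) ∧ ¬ BadAtS (p ^ ℓ) f) →
    ∃ (S J : ℕ) (xc : ι → ℤ),
      PDataS w f S J xc ∧ S * J = (∏ p ∈ primesUpTo w, p) ^ (2 * ℓ + 1) ∧ (N : ℤ) ∣ S ∧
      ∀ i, (N : ℤ) ∣ xc i - c i

/-- A good minor of a real matrix (job C6). -/
def MinorStmt (ι : Type*) [Fintype ι] (s : ℕ) : Prop :=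
  ∃ C : ℝ, 1 ≤ C ∧ ∀ (γ : ℝ) (L : Matrix (Fin s) ι ℝ), 0 < γ →
    (∀ (j₀ : Fin s) (l : Fin s → ℝ), l j₀ = 1 → (∀ j, |l j| ≤ 1) →
      ∃ i, γ < |∑ j, l j * L j i|) →
    ∃ (a : Fin s → ι) (Li : Matrix (Fin s) (Fin s) ℝ), Function.Injective a ∧
      Li * (Matrix.of fun j j' : Fin s => L j (a j')) = 1 ∧ ∀ j j', |Li j j'| ≤ C / γ

/-- `f` has a common primitive zero close to `ξ` and to `xc` -/
def ZeroNearS (η₀ : ℝ) (ξ : ι → ℝ) (S : ℕ) (xc : ι → ℤ) (f : Fin s → MvPolynomial ι ℤ) : Prop :=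
  ∃ x : ι → ℤ, Prim x ∧ (∀ j, MvPolynomial.eval x (f j) = 0) ∧ (∀ i, (S : ℤ) ∣ x i - xc i) ∧
    ∃ P : ℝ, 0 < P ∧ ∀ i, |(x i : ℝ) - P * ξ i| ≤ η₀ * P

open scoped Classical in
/-- The class theorem for systems. -/
def ClassStmtS (ι : Type*) [Fintype ι] {s : ℕ} (e : Fin s → ℕ) : Prop :=
  ∀ ε : ℝ, 0 < ε → ∃ w₀ : ℕ, 1 ≤ w₀ ∧ ∀ w, w₀ ≤ w → ∀ γ : ℝ, 0 < γ → γ ≤ 1 →
    ∀ Q₀ : ℕ, 1 ≤ Q₀ → ∀ η₀ : ℝ, 0 < η₀ → ∃ η : ℝ, 0 < η ∧ η ≤ 1 ∧ η ≤ η₀ ∧ ∃ H₀ : ℝ,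
    ∀ H : ℝ, H₀ ≤ H →
    ∀ (fc : Fin s → MvPolynomial ι ℤ) (S J : ℕ) (xc : ι → ℤ) (ξ : ι → ℝ) (a : Fin s → ι)
      (Li : Matrix (Fin s) (Fin s) ℝ),
    PDataS w fc S J xc → RDataS e H γ η fc ξ a Li → S * J ≤ Q₀ →
    (((sysZ ι e (η * H / (S * J : ℕ))).filter (fun g =>
      ¬ ZeroNearS η₀ ξ S xc (memS fc S J g))).card : ℝ) ≤
      ε * (sysZ ι e (η * H / (S * J : ℕ))).card

/-- approximate zeros at all places, close to a target -/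
def LocSolTS (N : ℕ) (c : ι → ℤ) (ζ : ι → ℝ) (δ : ℝ) (f : Fin s → MvPolynomial ι ℤ) : Prop :=
  (∀ p : ℕ, p.Prime → ∀ E : ℕ, ∃ (r : ι) (x : ι → ℤ), x r = 1 ∧
    (∀ j, (p : ℤ) ^ E ∣ MvPolynomial.eval x (f j)) ∧
      ∀ a : ℕ, p ^ a ∣ N → ∀ i, (p : ℤ) ^ a ∣ x i - c i) ∧
  ∃ (r : ι) (ξ : ι → ℝ), ξ r = 1 ∧ (∀ i, |ξ i| ≤ 1) ∧ (∀ i, |ξ i - ζ i| ≤ δ) ∧
    ∀ j, MvPolynomial.aeval ξ (f j) = 0

/-- primitive integral zeros close to a target -/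
def SolTS (N : ℕ) (c : ι → ℤ) (ζ : ι → ℝ) (δ : ℝ) (f : Fin s → MvPolynomial ι ℤ) : Prop :=
  ∃ x : ι → ℤ, Prim x ∧ (∀ j, MvPolynomial.eval x (f j) = 0) ∧ (∀ i, (N : ℤ) ∣ x i - c i) ∧
    ∃ P : ℝ, 0 < P ∧ ∀ i, |(x i : ℝ) - P * ζ i| ≤ 2 * δ * P

open scoped Classical in
/-- Almost all systems with approximate zeros at all places near a target have an integral zero
near the target (job C7). -/
def ExcStmtS (ι : Type*) [Fintype ι] {s : ℕ} (e : Fin s → ℕ) : Prop :=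
  ∀ (N : ℕ), 1 ≤ N → ∀ (c : ι → ℤ) (ζ : ι → ℝ) (δ : ℝ), 0 < δ → ∀ ε : ℝ, 0 < ε →
    ∃ H₀ : ℝ, ∀ H : ℝ, H₀ ≤ H →
    (((sysZ ι e H).filter (fun f => LocSolTS N c ζ δ f ∧ ¬ SolTS N c ζ δ f)).card : ℝ) ≤
        ε * (sysZ ι e H).card

open scoped Classical in
/-- A positive proportion of the systems has a nontrivial zero (job C8). -/
def PosStmtS (ι : Type*) [Fintype ι] {s : ℕ} (e : Fin s → ℕ) : Prop :=
  ∃ c : ℝ, 0 < c ∧ ∃ H₀ : ℝ, ∀ H : ℝ, H₀ ≤ H →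
    c * ((sysZ ι e H).card : ℝ) ≤ (((sysZ ι e H).filter (fun f =>
      ∃ x : ι → ℤ, x ≠ 0 ∧ ∀ j, MvPolynomial.eval x (f j) = 0)).card : ℝ)

/-- points over the real numbers and over all the `p`-adic fields -/
def ElsS (f : Fin s → MvPolynomial ι ℤ) : Prop :=
  (∃ x : ι → ℝ, x ≠ 0 ∧ ∀ j, MvPolynomial.aeval x (f j) = 0) ∧
    ∀ (p : ℕ) [Fact p.Prime], ∃ x : ι → ℚ_[p], x ≠ 0 ∧ ∀ j, MvPolynomial.aeval x (f j) = 0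

/-- The Hasse principle for almost all systems (job C8). -/
def HPStmtS (ι : Type*) [Fintype ι] {s : ℕ} (e : Fin s → ℕ) : Prop :=
  Filter.Tendsto (fun H : ℕ =>
      (({f : Fin s → MvPolynomial ι ℤ | (∀ j, (f j).IsHomogeneous (e j + 2) ∧
          ∀ m, |(f j).coeff m| ≤ (H : ℤ)) ∧
          ∃ x : ι → ℚ, x ≠ 0 ∧ ∀ j, MvPolynomial.aeval x (f j) = 0} : Set _).ncard : ℝ) /
      (({f : Fin s → MvPolynomial ι ℤ | (∀ j, (f j).IsHomogeneous (e j + 2) ∧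
          ∀ m, |(f j).coeff m| ≤ (H : ℤ)) ∧ ElsS f} : Set _).ncard : ℝ))
      Filter.atTop (nhds 1)

/-- Weak approximation with precision `1 / m` at the real place and at the primes up to `m`. -/
def WeakApproxS (m : ℕ) (f : Fin s → MvPolynomial ι ℤ) : Prop :=
  ∀ (z : ∀ (p : ℕ) [Fact p.Prime], ι → ℚ_[p]) (y : ι → ℝ),
    (∀ (p : ℕ) [Fact p.Prime], z p ≠ 0 ∧ ∀ j, MvPolynomial.aeval (z p) (f j) = 0) → y ≠ 0 →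
    (∀ j, MvPolynomial.aeval y (f j) = 0) →
    ∃ x : ι → ℚ, x ≠ 0 ∧ (∀ j, MvPolynomial.aeval x (f j) = 0) ∧
      (∀ (p : ℕ) [Fact p.Prime], p ≤ m → ∃ c : ℚ_[p], c ≠ 0 ∧
        ∀ i, ‖z p i - c * (x i : ℚ_[p])‖ ≤ ‖z p‖ / m) ∧
      ∃ c : ℝ, c ≠ 0 ∧ ∀ i, |y i - c * (x i : ℝ)| ≤ ‖y‖ / m

/-- Weak approximation for almost all systems (job C9). -/
def WAStmtS (ι : Type*) [Fintype ι] {s : ℕ} (e : Fin s → ℕ) : Prop :=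
  ∃ m : ℕ → ℕ, Filter.Tendsto m Filter.atTop Filter.atTop ∧
    Filter.Tendsto (fun H : ℕ =>
      (({f : Fin s → MvPolynomial ι ℤ | (∀ j, (f j).IsHomogeneous (e j + 2) ∧
          ∀ m, |(f j).coeff m| ≤ (H : ℤ)) ∧ ElsS f ∧ WeakApproxS (m H) f} : Set _).ncard : ℝ) /
      (({f : Fin s → MvPolynomial ι ℤ | (∀ j, (f j).IsHomogeneous (e j + 2) ∧
          ∀ m, |(f j).coeff m| ≤ (H : ℤ)) ∧ ElsS f} : Set _).ncard : ℝ))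
      Filter.atTop (nhds 1)

end

end Pool.Agent.Y716.C
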