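import Pool.Agent.Y716.C.Moment

/-!
# Chebyshev's inequality for a class of systems
-/

namespace Pool.Agent.Y716.C

open Pool.Agent.Y716.Q

variable {ι : Type*} [Fintype ι] {s : ℕ}

/-- `f` has a common primitive zero in `X` -/
def ZeroInS (X : Finset (ι → ℤ)) (f : Fin s → MvPolynomial ι ℤ) : Prop :=
  ∃ x ∈ X, Prim x ∧ ∀ j, MvPolynomial.eval x (f j) = 0

open scoped Classical in
theorem chebyshev_classS (e : Fin s → ℕ) {fc : Fin s → MvPolynomial ι ℤ} {S J : ℕ} (hS : 0 < S)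
    (hJ : 0 < J)
    {xc : ι → ℤ} {P : ℝ} {ξ : ι → ℝ} {a : Fin s → ι} {ρ ρ' B a₀ A A' : ℝ} {Δ : Fin s → ℝ}
    (ha : 1 ≤ a₀) (hB : 1 ≤ B)
    (u : Fin s → (ι → ℤ) → ℤ)
    (hu : ∀ x ∈ boxS P ξ a ρ ρ' S J xc fc, ∀ j,
      MvPolynomial.eval x (fc j) = -(((S * J : ℕ) : ℤ) * u j x))
    (hΔ : ∀ j, 0 ≤ Δ j)
    (hA : ∀ j, A' + c1pt (Fintype.card ι) (e j + 1) * (Δ j / B ^ (e j + 2) + a₀) ≤ A)
    {R E₁ : ℝ} (hE₁ : 0 ≤ E₁)
    (hR : ∀ g ∈ sysZ ι e A', R ≤
      (((testSetS B a₀ P ξ a ρ ρ' S J xc fc).filter (fun x =>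
        ∀ j, |((MvPolynomial.eval x (memS fc S J g j) : ℤ) : ℝ)| ≤ (S * J : ℕ) * Δ j)).card : ℝ))
    (hE : E₁ * (sysZ ι e A).card * (∏ j, (2 * Δ j + 1)) ≤ (sysZ ι e A').card * R) :
    (((sysZ ι e A).filter (fun g =>
      ¬ ZeroInS (testSetS B a₀ P ξ a ρ ρ' S J xc fc) (memS fc S J g))).card : ℝ) * E₁ ^ 2 ≤
      ∑ p ∈ (testSetS B a₀ P ξ a ρ ρ' S J xc fc) ×ˢ (testSetS B a₀ P ξ a ρ ρ' S J xc fc),
        ∏ j, (c2 (e j) A (u j) p : ℝ) - E₁ ^ 2 * (sysZ ι e A).card := by
  set X' := testSetS B a₀ P ξ a ρ ρ' S J xc fc with hX'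
  set G := sysZ ι e A with hG
  set G' := sysZ ι e A' with hG'
  have hSJ : (0:ℝ) < ((S * J : ℕ) : ℝ) := by exact_mod_cast Nat.mul_pos hS hJ
  have hev : ∀ g : Fin s → MvPolynomial ι ℤ, ∀ x ∈ X', ∀ j,
      MvPolynomial.eval x (memS fc S J g j) =
      ((S * J : ℕ) : ℤ) * (MvPolynomial.eval x (g j) - u j x) := by
    intro g x hx j
    unfold memS mem'
    rw [map_add, map_mul, MvPolynomial.eval_C, hu x (mem_testSetS.mp hx).1 j]; ring
  set Nf : (Fin s → MvPolynomial ι ℤ) → ℝ := fun g =>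
    ((X'.filter (fun x => ∀ j, MvPolynomial.eval x (g j) = u j x)).card : ℝ) with hNf
  -- second moment
  have hM2 : ∑ g ∈ G, (Nf g) ^ 2 = ∑ p ∈ X' ×ˢ X', ∏ j, (c2 (e j) A (u j) p : ℝ) := by
    have h1 : ∀ g, (Nf g) ^ 2 = ∑ p ∈ X' ×ˢ X',
        (if ∀ j, MvPolynomial.eval p.1 (g j) = u j p.1 ∧ MvPolynomial.eval p.2 (g j) = u j p.2
          then (1:ℝ) else 0) := by
      intro g
      rw [hNf, sq]
      simp only
      rw [Finset.card_filter]
      push_cast
      rw [Finset.sum_mul_sum, Finset.sum_product]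
      refine Finset.sum_congr rfl (fun x _ => ?_)
      refine Finset.sum_congr rfl (fun y _ => ?_)
      by_cases h1 : ∀ j, MvPolynomial.eval x (g j) = u j x
      · by_cases h2 : ∀ j, MvPolynomial.eval y (g j) = u j y
        · rw [if_pos h1, if_pos h2, mul_one]
          symm
          exact if_pos (fun j => ⟨h1 j, h2 j⟩)
        · rw [if_neg h2, mul_zero]
          symm
          exact if_neg (fun h => h2 (fun j => (h j).2))
      · rw [if_neg h1, zero_mul]
        symm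
        exact if_neg (fun h => h1 (fun j => (h j).1))
    simp only [h1]
    rw [Finset.sum_comm]
    refine Finset.sum_congr rfl (fun p _ => ?_)
    unfold c2
    rw [prod_card_filter (fun j f => MvPolynomial.eval p.1 f = u j p.1 ∧
      MvPolynomial.eval p.2 f = u j p.2), Finset.card_filter]
    push_cast
    rfl
  -- first moment
  have hM1 : E₁ * G.card ≤ ∑ g ∈ G, Nf g := by
    have hprod : 0 < ∏ j : Fin s, (2 * Δ j + 1) :=
      Finset.prod_pos (fun j _ => by have := hΔ j; linarith)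
    have h1 : (G'.card : ℝ) * R ≤ (∑ g ∈ G, Nf g) * (∏ j, (2 * Δ j + 1)) := by
      calc (G'.card : ℝ) * R = ∑ _g ∈ G', R := by rw [Finset.sum_const, nsmul_eq_mul]
        _ ≤ ∑ g ∈ G', ((X'.filter (fun x =>
            ∀ j, |((MvPolynomial.eval x (memS fc S J g j) : ℤ) : ℝ)| ≤
              (S * J : ℕ) * Δ j)).card : ℝ) :=
            Finset.sum_le_sum (fun g hg => hR g hg)
        _ = ∑ g ∈ G', ∑ x ∈ X', (if ∀ j, |((MvPolynomial.eval x (g j) - u j x : ℤ) : ℝ)| ≤ Δ j
            then (1:ℝ) else 0) := by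
            refine Finset.sum_congr rfl (fun g _ => ?_)
            rw [Finset.card_filter]
            push_cast
            refine Finset.sum_congr rfl (fun x hx => ?_)
            have h2 : ∀ j, |((MvPolynomial.eval x (memS fc S J g j) : ℤ) : ℝ)| ≤
                ((S * J : ℕ) : ℝ) * Δ j ↔
                |((MvPolynomial.eval x (g j) - u j x : ℤ) : ℝ)| ≤ Δ j := by
              intro j
              rw [hev g x hx j, Int.cast_mul, abs_mul]
              have h3 : |(((S * J : ℕ) : ℤ) : ℝ)| = ((S * J : ℕ) : ℝ) := by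
                rw [Int.cast_natCast, abs_of_pos hSJ]
              rw [h3]
              exact mul_le_mul_iff_right₀ hSJ
            push_cast at h2
            by_cases h3 : ∀ j, |((MvPolynomial.eval x (g j) : ℤ) : ℝ) - ((u j x : ℤ) : ℝ)| ≤ Δ j
            · rw [if_pos h3, if_pos (fun j => (h2 j).mpr (h3 j))]
            · rw [if_neg h3, if_neg (fun h4 => h3 (fun j => (h2 j).mp (h4 j)))]
        _ = ∑ x ∈ X', ((G'.filter (fun g => ∀ j,
              |((MvPolynomial.eval x (g j) - u j x : ℤ) : ℝ)| ≤ Δ j)).card : ℝ)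
            := by
            rw [Finset.sum_comm]
            refine Finset.sum_congr rfl (fun x _ => ?_)
            rw [Finset.card_filter]
            push_cast
            rfl
        _ ≤ ∑ x ∈ X', ((G.filter (fun g => ∀ j, MvPolynomial.eval x (g j) = u j x)).card : ℝ) *
              (∏ j, (2 * Δ j + 1)) := by
            refine Finset.sum_le_sum (fun x hx => ?_)
            obtain ⟨hx1, hx2, hx3, hx4⟩ := mem_testSetS.mp hx
            rw [hG, hG', ← prod_card_filter (fun j f =>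
                |((MvPolynomial.eval x f - u j x : ℤ) : ℝ)| ≤ Δ j),
              ← prod_card_filter (fun j f => MvPolynomial.eval x f = u j x),
              ← Finset.prod_mul_distrib]
            apply Finset.prod_le_prod (fun j _ => Nat.cast_nonneg _)
            intro j _
            exact cnt1_ge (e j + 1) hx4 hx2 hB ha (hΔ j) (hA j) (u j x)
        _ = (∑ x ∈ X', ((G.filter (fun g => ∀ j, MvPolynomial.eval x (g j) = u j x)).card : ℝ)) *
              (∏ j, (2 * Δ j + 1))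
            := by rw [Finset.sum_mul]
        _ = (∑ g ∈ G, Nf g) * (∏ j, (2 * Δ j + 1)) := by
            congr 1
            rw [hNf]
            simp only [Finset.card_filter, Nat.cast_sum]
            exact Finset.sum_comm
    have h2 : E₁ * G.card * (∏ j, (2 * Δ j + 1)) ≤ (∑ g ∈ G, Nf g) * (∏ j, (2 * Δ j + 1)) :=
      hE.trans h1
    exact le_of_mul_le_mul_right h2 hprod
  set Z := G.filter (fun g => ¬ ZeroInS X' (memS fc S J g))
    with hZ
  have hZ0 : ∀ g ∈ Z, Nf g = 0 := by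
    intro g hg
    rw [hZ, Finset.mem_filter] at hg
    rw [hNf]
    simp only [Nat.cast_eq_zero, Finset.card_eq_zero]
    apply Finset.filter_false_of_mem
    intro x hx heq
    apply hg.2
    refine ⟨x, hx, (mem_testSetS.mp hx).2.2.1, fun j => ?_⟩
    rw [hev g x hx j, heq j, sub_self, mul_zero]
  have hvar : (Z.card : ℝ) * E₁ ^ 2 ≤ ∑ g ∈ G, (Nf g - E₁) ^ 2 := by
    calc (Z.card : ℝ) * E₁ ^ 2 = ∑ g ∈ Z, (Nf g - E₁) ^ 2 := by
          rw [Finset.sum_congr rfl (g := fun _ => E₁ ^ 2) (fun g hg => by rw [hZ0 g hg]; ring),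
            Finset.sum_const, nsmul_eq_mul]
      _ ≤ ∑ g ∈ G, (Nf g - E₁) ^ 2 :=
          Finset.sum_le_sum_of_subset_of_nonneg (Finset.filter_subset _ _)
            (fun _ _ _ => sq_nonneg _)
  have hexp : ∑ g ∈ G, (Nf g - E₁) ^ 2 = ∑ g ∈ G, (Nf g) ^ 2 - 2 * E₁ * ∑ g ∈ G, Nf g +
      E₁ ^ 2 * G.card := by
    have : ∀ g, (Nf g - E₁) ^ 2 = (Nf g) ^ 2 - 2 * E₁ * Nf g + E₁ ^ 2 := by intro g; ring
    simp only [this]
    rw [Finset.sum_add_distrib, Finset.sum_sub_distrib, ← Finset.mul_sum, Finset.sum_const,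
      nsmul_eq_mul]
    ring
  rw [hexp, hM2] at hvar
  nlinarith [mul_le_mul_of_nonneg_left hM1 hE₁]

end Pool.Agent.Y716.C
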