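import Pool.Agent.Y716.C.Core
import Pool.Agent.Y606.C.C12
import Pool.Agent.Y349.C.Nums
import Pool.Agent.Y514.C.Unbal

/-!
# The class theorem for systems
-/

namespace Pool.Agent.Y716.C

open Pool.Agent.Y716.Q Filter

theorem nuJ_pos {ι : Type*} [Fintype ι] {s : ℕ} (fc : Fin s → MvPolynomial ι ℤ) {J : ℕ}
    (hJ : 0 < J) (xc : ι → ℤ) : 1 ≤ nuJ fc J xc := by
  classical
  unfold nuJ
  apply Finset.card_pos.mpr
  refine ⟨0, ?_⟩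
  rw [Finset.mem_filter, Fintype.mem_piFinset]
  refine ⟨fun i => Finset.mem_range.mpr hJ, fun j => ?_⟩
  simp

theorem exists_boundS {s : ℕ} (f : Fin s → ℝ) : ∃ C : ℝ, 1 ≤ C ∧ ∀ j, f j ≤ C := by
  refine ⟨1 + ∑ j, |f j|, ?_, fun j => ?_⟩
  · have : 0 ≤ ∑ j, |f j| := Finset.sum_nonneg (fun j _ => abs_nonneg _)
    linarith
  · have h1 := Finset.single_le_sum (f := fun j => |f j|) (fun j _ => abs_nonneg (f j))
      (Finset.mem_univ j)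
    have h2 := le_abs_self (f j)
    linarith

/-- the volume of the box -/
theorem R_low {k s J S ν : ℕ} {ρ δ η P cd Q₀ dt V R : ℝ} (hsk : s ≤ k) (hρ : 0 < ρ) (hδ : 0 < δ)
    (hη : 0 < η) (hP : 0 < P) (hcd : 0 < cd) (hν : 1 ≤ ν) (hdt : cd ≤ dt)
    (hV : V = (2 * ρ * P) ^ (k - s) * (2 * δ * η * P) ^ s * dt)
    (hSJ0 : 0 < S * J) (hSJ : ((S * J : ℕ) : ℝ) ≤ Q₀)
    (hR : ν * V / ((S * J : ℕ) : ℝ) ^ k = R) :
    (2 * ρ) ^ (k - s) * (2 * δ * η) ^ s * cd / Q₀ ^ k * P ^ k ≤ R := by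
  have hSJr : (0:ℝ) < ((S * J : ℕ) : ℝ) := by exact_mod_cast hSJ0
  have hνr : (1:ℝ) ≤ ν := by exact_mod_cast hν
  have hPk : P ^ k = P ^ (k - s) * P ^ s := by rw [← pow_add]; congr 1; omega
  have h1 : (2 * ρ) ^ (k - s) * (2 * δ * η) ^ s * cd / Q₀ ^ k * P ^ k =
      ((2 * ρ * P) ^ (k - s) * (2 * δ * η * P) ^ s * cd) / Q₀ ^ k := by
    rw [hPk, mul_pow (2 * ρ) P, mul_pow (2 * δ * η) P]; ring
  have hV0 : 0 ≤ (2 * ρ * P) ^ (k - s) * (2 * δ * η * P) ^ s * cd := by positivity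
  have h2 : (2 * ρ * P) ^ (k - s) * (2 * δ * η * P) ^ s * cd ≤ ν * V := by
    rw [hV]
    have h3 : (2 * ρ * P) ^ (k - s) * (2 * δ * η * P) ^ s * cd ≤
        (2 * ρ * P) ^ (k - s) * (2 * δ * η * P) ^ s * dt :=
      mul_le_mul_of_nonneg_left hdt (by positivity)
    exact h3.trans (le_mul_of_one_le_left (hV0.trans h3) hνr)
  rw [h1, ← hR]
  exact div_le_div₀ (hV0.trans h2) h2 (by positivity) (pow_le_pow_left₀ hSJr.le hSJ _)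

theorem rho_lowS {k s J S ν : ℕ} {e : Fin s → ℕ} {ρ δ η P A cd Q₀ dt V R c₀ : ℝ} {Δ : Fin s → ℝ}
    (hsk : s ≤ k) (hρ : 0 < ρ)
    (hδ : 0 < δ) (hη : 0 < η) (hP : 0 < P) (hA : 0 < A) (hcd : 0 < cd) (hν : 1 ≤ ν)
    (hdt : cd ≤ dt) (hV : V = (2 * ρ * P) ^ (k - s) * (2 * δ * η * P) ^ s * dt)
    (hSJ0 : 0 < S * J) (hSJ : ((S * J : ℕ) : ℝ) ≤ Q₀)
    (hR : ν * V / ((S * J : ℕ) : ℝ) ^ k = R)
    (hc₀ : c₀ = (2 * ρ) ^ (k - s) * η ^ s * cd / Q₀ ^ k)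
    (hΔ : ∀ j, Δ j = δ * A * P ^ (e j + 2)) :
    c₀ * P ^ k / (A ^ s * P ^ (∑ j, (e j + 2))) ≤ R / ∏ j, (2 * Δ j) := by
  have h1 := R_low hsk hρ hδ hη hP hcd hν hdt hV hSJ0 hSJ hR
  have hQ0 : 0 < Q₀ := lt_of_lt_of_le (by exact_mod_cast hSJ0) hSJ
  have h2 : ∏ j, (2 * Δ j) = (2 * δ) ^ s * (A ^ s * P ^ (∑ j, (e j + 2))) := by
    have h3 : ∀ j, 2 * Δ j = (2 * δ * A) * P ^ (e j + 2) := fun j => by rw [hΔ j]; ring
    rw [Finset.prod_congr rfl (fun j _ => h3 j), Finset.prod_mul_distrib, Finset.prod_const,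
      Finset.card_univ, Fintype.card_fin, Finset.prod_pow_eq_pow_sum, mul_pow]
    ring
  rw [h2]
  have h4 := div_le_div_of_nonneg_right h1 (by positivity :
    0 ≤ (2 * δ) ^ s * (A ^ s * P ^ (∑ j, (e j + 2))))
  refine le_trans (le_of_eq ?_) h4
  rw [hc₀, show 2 * δ * η = (2 * δ) * η by ring, mul_pow (2 * δ) η]
  field_simp

/-- The class theorem for systems. -/
theorem class_systems_of (ι : Type*) [Fintype ι] {s : ℕ} (hs : 1 ≤ s)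
    (h2s : 2 * s + 2 ≤ Fintype.card ι) (e : Fin s → ℕ)
    (hdeg : ∑ j, (e j + 2) + 1 ≤ Fintype.card ι)
    (hLU : LocUpper ι s) (hTL : TestLower ι s) (htl : TailStmt ι s) (hreal : RealStmt ι e) :
    ClassStmtS ι e := by
  intro ε hε
  obtain ⟨Ct, hCt0, hCt⟩ := second_momentS ι (by omega) htl e
  obtain ⟨Cu, hCu0, hCu⟩ : ∃ Cu : ℝ, 0 < Cu ∧ UB ι Cu :=
    unbal_bound ι (by omega : 2 ≤ Fintype.card ι)
  obtain ⟨cd, hcd0, hcd⟩ := Y349.C.det_lower ι e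
  obtain ⟨k, hk⟩ : ∃ k, Fintype.card ι = k := ⟨_, rfl⟩
  rw [hk] at h2s hdeg
  obtain ⟨M, hM⟩ : ∃ M, ∑ j, (mons ι (e j + 2)).card = M := ⟨_, rfl⟩
  obtain ⟨τ, hτ0, hτ1, hb0, hb1, hτF⟩ := Y349.C.exists_tauS s (ε := ε / 2) (by positivity)
  obtain ⟨α, β, cc, r, hcc, hr, hαβ, hcα, hβcc, hccβ, hccr⟩ := Y606.C.exists_exponents hs h2s
  have hα0 : α ≠ 0 := by omega
  have hαβ' : α + 1 ≤ β := by nlinarith
  refine ⟨⌈1 / τ⌉₊ + 1, by omega, ?_⟩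
  intro w hw γ hγ hγ1 Q₀ hQ₀ η₀ hη₀
  have hw1 : 1 ≤ w := by omega
  have hwr : (1:ℝ) ≤ w := by exact_mod_cast hw1
  have hwτ : 1 / (w : ℝ) ≤ τ := by
    have h1 : 1 / τ ≤ w := by
      refine (Nat.le_ceil _).trans ?_
      have : ⌈1 / τ⌉₊ ≤ w := by omega
      exact_mod_cast this
    rw [div_le_iff₀ hτ0] at h1
    rw [div_le_iff₀ (by linarith)]
    linarith
  have hQ₀r : (1:ℝ) ≤ Q₀ := by exact_mod_cast hQ₀
  obtain ⟨ρ, ρ', η, θ, hρ0, hρρ', hρ'2, hρ'η₀, hη0, hη1, hηη₀, hθ0, hreal'⟩ :=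
    hreal τ γ η₀ hτ0 hτ1 hγ hγ1 hη₀
  obtain ⟨c₀, hc₀⟩ : ∃ c₀ : ℝ, c₀ = (2 * ρ) ^ (k - s) * η ^ s * cd / (Q₀ : ℝ) ^ k := ⟨_, rfl⟩
  have hc₀0 : 0 < c₀ := by rw [hc₀]; positivity
  obtain ⟨T, hT⟩ : ∃ T : ℝ, T = (16 * Ct * 4 ^ M * 4 ^ k / (ε * c₀ ^ 2)) ^ 2 + 1 := ⟨_, rfl⟩
  have hT1 : 1 ≤ T := by
    rw [hT]
    have := sq_nonneg (16 * Ct * 4 ^ M * 4 ^ k / (ε * c₀ ^ 2))
    linarith
  have hTs : 16 * Ct * 4 ^ M * 4 ^ k / (ε * c₀ ^ 2) ≤ Real.sqrt T := by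
    apply Real.le_sqrt_of_sq_le
    rw [hT]; linarith
  have hT0 : 0 < T := by linarith
  obtain ⟨N, hN⟩ : ∃ N : ℕ, N = ⌈2 * T⌉₊ := ⟨_, rfl⟩
  have hNT : 2 * T ≤ N := by rw [hN]; exact Nat.le_ceil _
  obtain ⟨K, hK⟩ : ∃ K : ℕ, K = (∏ p ∈ (Finset.range (w + 1)).filter Nat.Prime, p) ^ N := ⟨_, rfl⟩
  have hK0 : 0 < K := by
    rw [hK]
    apply pow_pos
    apply Finset.prod_pos
    intro p hp
    exact (Finset.mem_filter.mp hp).2.pos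
  have hKr : (1:ℝ) ≤ K := by exact_mod_cast hK0
  obtain ⟨τ₂, hτ₂0, hτ₂1, hτ₂2, hτ₂3⟩ := exists_ratio M hτ0
  have hc1 : ∀ j, 0 ≤ c1pt k (e j + 1) := fun j => c1pt_nonneg _ _
  have hc2 : ∀ j, 0 ≤ cker k (e j) := fun j => cker_nonneg _ _
  obtain ⟨C₅, hC₅1, hC₅⟩ := exists_boundS (fun j => c1pt k (e j + 1) + cker k (e j) *
      (1 + (mons ι (e j + 2)).card * c1pt k (e j + 1)) / (1 / T))
  obtain ⟨C₆, hC₆1, hC₆⟩ := exists_boundS (fun j => cker k (e j))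
  have hC₅c : ∀ j, c1pt k (e j + 1) ≤ C₅ := by
    intro j
    have h1 := hC₅ j
    have h2 : 0 ≤ cker k (e j) *
      (1 + (mons ι (e j + 2)).card * c1pt k (e j + 1)) / (1 / T) := by
      have := hc1 j
      have := hc2 j
      positivity
    linarith
  obtain ⟨δ, hδ⟩ : ∃ δ : ℝ, δ = τ₂ / (4 * C₅) := ⟨_, rfl⟩
  have hδ0 : 0 < δ := by rw [hδ]; positivity
  have hδc : C₅ * δ = τ₂ / 4 := by rw [hδ]; field_simp
  have hδ1 : δ ≤ 1 := by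
    rw [hδ, div_le_one (by positivity)]; linarith
  obtain ⟨cR, hcR⟩ : ∃ cR : ℝ, cR = (2 * ρ) ^ (k - s) * (2 * δ * η) ^ s * cd / (Q₀ : ℝ) ^ k :=
    ⟨_, rfl⟩
  have hcR0 : 0 < cR := by rw [hcR]; positivity
  obtain ⟨N', hN'⟩ : ∃ N' : ℕ, N' = ⌈6 ^ k / (τ * cR)⌉₊ + 1 := ⟨_, rfl⟩
  have hN'1 : 1 ≤ N' := by omega
  have hN'r : 6 ^ k / (τ * cR) ≤ N' := by
    rw [hN']
    push_cast
    have := Nat.le_ceil (6 ^ k / (τ * cR))
    linarith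
  obtain ⟨Yl, hYl⟩ := Y606.C.log_cond k r cc β
  obtain ⟨Yu, hYu⟩ := Y514.C.unbal_sys ι hCu0 hCu hk (by omega) (by omega : 1 ≤ cc) hr hccr hβcc
    hccβ (mul_pos hτ0 hcR0)
  -- the threshold for Y
  have hev : ∀ᶠ Y : ℝ in atTop, 3 ≤ Y ∧ (r : ℝ) ≤ Y ∧ 4 * C₅ * K * r / τ₂ ≤ Y ∧
      6 * C₆ * r ^ 2 / τ₂ ≤ Y ∧ (K * N : ℝ) / (τ * δ) ≤ Y ∧
      (K * N + N' : ℝ) * Q₀ / (θ * δ) ≤ Y ∧ 16 * Ct * 3 ^ M * 6 ^ k / (ε * c₀ ^ 2) ≤ Y ∧
      1 + 1 / τ₂ ≤ Y ∧ 1 / (τ * δ) ≤ Y ∧ Yl ≤ Y ∧ Yu ≤ Y := by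
    filter_upwards [eventually_ge_atTop (3:ℝ), eventually_ge_atTop (r : ℝ),
      eventually_ge_atTop (4 * C₅ * K * r / τ₂),
      eventually_ge_atTop (6 * C₆ * r ^ 2 / τ₂),
      eventually_ge_atTop ((K * N : ℝ) / (τ * δ)),
      eventually_ge_atTop ((K * N + N' : ℝ) * Q₀ / (θ * δ)),
      eventually_ge_atTop (16 * Ct * 3 ^ M * 6 ^ k / (ε * c₀ ^ 2)),
      eventually_ge_atTop (1 + 1 / τ₂),
      eventually_ge_atTop (1 / (τ * δ)), eventually_ge_atTop Yl,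
      eventually_ge_atTop Yu] with Y h1 h2 h3 h4 h5 h6 h7 h8 h9 h10 h11
    exact ⟨h1, h2, h3, h4, h5, h6, h7, h8, h9, h10, h11⟩
  obtain ⟨Y₁, hY₁⟩ := Filter.eventually_atTop.mp hev
  obtain ⟨Y₀, hY₀⟩ : ∃ Y₀ : ℝ, Y₀ = max Y₁ 1 := ⟨_, rfl⟩
  have hY₀1 : 1 ≤ Y₀ := by rw [hY₀]; exact le_max_right _ _
  have hY₀Y₁ : Y₁ ≤ Y₀ := by rw [hY₀]; exact le_max_left _ _
  refine ⟨η, hη0, hη1, hηη₀, Q₀ * Y₀ ^ α / η, ?_⟩
  intro H hH fc S J xc ξ a Li hP hR hq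
  obtain ⟨q, hqdef⟩ : ∃ q : ℕ, S * J = q := ⟨_, rfl⟩
  have hq1 : 1 ≤ q := by rw [← hqdef]; exact Nat.mul_pos hP.hS hP.hJ
  have hqr : (1:ℝ) ≤ q := by exact_mod_cast hq1
  have hqQ : (q:ℝ) ≤ Q₀ := by rw [← hqdef]; exact_mod_cast hq
  have hH0 : 0 < H := lt_of_lt_of_le (by positivity) hH
  obtain ⟨A, hA⟩ : ∃ A : ℝ, η * H / ((S * J : ℕ) : ℝ) = A := ⟨_, rfl⟩
  rw [hA]
  rw [hqdef] at hA
  have hAq : q * A = η * H := by rw [← hA]; field_simp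
  have hA₀ : Y₀ ^ α ≤ A := by
    rw [div_le_iff₀ hη0] at hH
    have h1 : (q:ℝ) * Y₀ ^ α ≤ q * A := by
      rw [hAq]
      have : (q:ℝ) * Y₀ ^ α ≤ Q₀ * Y₀ ^ α := mul_le_mul_of_nonneg_right hqQ (by positivity)
      linarith
    exact le_of_mul_le_mul_left h1 (by linarith)
  have hA0 : 0 < A := lt_of_lt_of_le (by positivity) hA₀
  obtain ⟨Y, hY⟩ : ∃ Y : ℝ, Y = A ^ ((α : ℝ)⁻¹) := ⟨_, rfl⟩
  have hYA : Y ^ α = A := by rw [hY]; exact Real.rpow_inv_natCast_pow hA0.le hα0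
  have hYnn : 0 ≤ Y := by rw [hY]; positivity
  have hYY₀ : Y₀ ≤ Y := by
    rw [← hYA] at hA₀
    exact le_of_pow_le_pow_left₀ hα0 hYnn hA₀
  obtain ⟨y1, y2, y3, y4, y5, y6, y9, y10, y11, y12, y13⟩ := hY₁ Y (hY₀Y₁.trans hYY₀)
  clear hY₁ hev
  have hY0 : 0 < Y := by linarith
  have hY1 : 1 ≤ Y := by linarith
  obtain ⟨P, hPdef⟩ : ∃ P : ℝ, P = Y ^ β := ⟨_, rfl⟩
  have hPY : Y ≤ P := by
    rw [hPdef]
    exact le_self_pow₀ hY1 (by omega)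
  have hP0 : 0 < P := by linarith
  have hP1 : 1 ≤ P := by linarith
  have hAY : Y ≤ A := by
    rw [← hYA]
    exact le_self_pow₀ hY1 hα0
  -- the parameter a₀
  obtain ⟨a₀, ha₀⟩ : ∃ a₀ : ℝ, a₀ = (r : ℝ) * ((⌊Y ^ cc⌋₊ : ℕ) : ℝ) := ⟨_, rfl⟩
  have hfl1 : 1 ≤ ⌊Y ^ cc⌋₊ := by
    apply Nat.le_floor
    push_cast
    exact one_le_pow₀ hY1
  have hrr : (1:ℝ) ≤ r := by exact_mod_cast hr
  have hfl1' : (1:ℝ) ≤ ((⌊Y ^ cc⌋₊ : ℕ) : ℝ) := by exact_mod_cast hfl1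
  have ha1 : 1 ≤ a₀ := by
    rw [ha₀]
    exact one_le_mul_of_one_le_of_one_le hrr hfl1'
  have haY : a₀ ≤ r * Y ^ cc := by
    rw [ha₀]
    exact mul_le_mul_of_nonneg_left (Nat.floor_le (by positivity)) (by linarith)
  have haB : a₀ ≤ 2 * P := by
    have h1 : r * Y ^ cc ≤ Y * Y ^ cc := mul_le_mul_of_nonneg_right y2 (by positivity)
    have h2 : Y * Y ^ cc ≤ P := by
      rw [hPdef, mul_comm, ← pow_succ]
      exact pow_le_pow_right₀ hY1 (by omega)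
    linarith
  have haA₁ : C₅ * (K * a₀) ≤ τ₂ / 4 * A := by
    have h1 : 4 * C₅ * K * r ≤ Y * τ₂ := by rwa [div_le_iff₀ hτ₂0] at y3
    have h2 : C₅ * (K * a₀) ≤ C₅ * (K * (r * Y ^ cc)) := by
      apply mul_le_mul_of_nonneg_left _ (by linarith)
      exact mul_le_mul_of_nonneg_left haY (by linarith)
    have h3 : C₅ * (K * (r * Y ^ cc)) = (4 * C₅ * K * r) * (Y ^ cc / 4) := by ring
    have h4 := mul_le_mul_of_nonneg_right h1 (by positivity : 0 ≤ Y ^ cc / 4)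
    have h5 : Y * Y ^ cc ≤ A := by
      rw [← hYA, mul_comm, ← pow_succ]
      exact pow_le_pow_right₀ hY1 (by omega)
    have h6 := mul_le_mul_of_nonneg_left h5 (by positivity : 0 ≤ τ₂ / 4)
    linarith
  have haA₂ : C₆ * ((1 + 2 * Y) * a₀ ^ 2) ≤ τ₂ / 2 * A := by
    have h1 : 6 * C₆ * r ^ 2 ≤ Y * τ₂ := by rwa [div_le_iff₀ hτ₂0] at y4
    have h2 : a₀ ^ 2 ≤ (r * Y ^ cc) ^ 2 := pow_le_pow_left₀ (by linarith) haY 2
    have h3 : (1 + 2 * Y) * a₀ ^ 2 ≤ (3 * Y) * (r * Y ^ cc) ^ 2 :=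
      mul_le_mul (by linarith) h2 (by positivity) (by positivity)
    have h4 := mul_le_mul_of_nonneg_left h3 (by linarith : 0 ≤ C₆)
    have h5 : C₆ * ((3 * Y) * (r * Y ^ cc) ^ 2) = (6 * C₆ * r ^ 2) * (Y ^ (2 * cc) * Y / 2) := by
      ring
    have h6 := mul_le_mul_of_nonneg_right h1 (by positivity : 0 ≤ Y ^ (2 * cc) * Y / 2)
    have h7 : Y ^ (2 * cc) * Y * Y ≤ A := by
      rw [← hYA, ← pow_succ, ← pow_succ]
      exact pow_le_pow_right₀ hY1 (by omega)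
    have h8 := mul_le_mul_of_nonneg_left h7 (by positivity : 0 ≤ τ₂ / 2)
    have h9 : Y * τ₂ * (Y ^ (2 * cc) * Y / 2) = τ₂ / 2 * (Y ^ (2 * cc) * Y * Y) := by ring
    linarith
  -- the widths
  obtain ⟨Δ, hΔ⟩ : ∃ Δ : Fin s → ℝ, Δ = fun j => δ * A * P ^ (e j + 2) := ⟨_, rfl⟩
  have hΔj : ∀ j, Δ j = δ * A * P ^ (e j + 2) := fun j => by rw [hΔ]
  have hPe : ∀ j, (1:ℝ) ≤ P ^ (e j + 2) := fun j => one_le_pow₀ hP1
  have hΔ0 : ∀ j, 0 < Δ j := fun j => by rw [hΔj]; positivity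
  have hΔA : ∀ j, τ * (δ * A) ≤ τ * Δ j := by
    intro j
    rw [hΔj]
    exact mul_le_mul_of_nonneg_left (le_mul_of_one_le_right (by positivity) (hPe j)) hτ0.le
  have hKNΔ : ∀ j, (K * N : ℝ) ≤ τ * Δ j := by
    intro j
    refine le_trans ?_ (hΔA j)
    have h1 : (K * N : ℝ) ≤ Y * (τ * δ) := by rwa [div_le_iff₀ (by positivity)] at y5
    have h2 := mul_le_mul_of_nonneg_right hAY (by positivity : 0 ≤ τ * δ)
    linarith
  have h1Δ : ∀ j, 1 ≤ τ * Δ j := by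
    intro j
    refine le_trans ?_ (hΔA j)
    have h1 : 1 ≤ Y * (τ * δ) := by rwa [div_le_iff₀ (by positivity)] at y11
    have h2 := mul_le_mul_of_nonneg_right hAY (by positivity : 0 ≤ τ * δ)
    linarith
  have hΔP : ∀ j, Δ j / (2 * P) ^ (e j + 2) ≤ δ * A := by
    intro j
    rw [hΔj, div_le_iff₀ (by positivity)]
    apply mul_le_mul_of_nonneg_left _ (by positivity)
    exact pow_le_pow_left₀ hP0.le (by linarith) _
  have hΔP0 : ∀ j, 0 ≤ Δ j / (2 * P) ^ (e j + 2) := fun j => by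
    have := hΔ0 j
    positivity
  have hδA : C₅ * (δ * A) = τ₂ / 4 * A := by rw [← mul_assoc, hδc]
  have hA₂ : ∀ j, A + (c1pt k (e j + 1) + cker k (e j) *
      (1 + (mons ι (e j + 2)).card * c1pt k (e j + 1)) / (1 / T)) *
      (Δ j / (2 * P) ^ (e j + 2) + K * a₀) + cker k (e j) * ((1 + 2 * Y) * a₀ ^ 2) ≤
      (1 + τ₂) * A := by
    intro j
    have h1 := mul_le_mul_of_nonneg_right (hC₅ j) (by
      have := hΔP0 j
      positivity : 0 ≤ Δ j / (2 * P) ^ (e j + 2) + K * a₀)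
    have h2 : C₅ * (Δ j / (2 * P) ^ (e j + 2) + K * a₀) ≤ C₅ * (δ * A + K * a₀) :=
      mul_le_mul_of_nonneg_left (by linarith [hΔP j]) (by linarith)
    have h3 := mul_le_mul_of_nonneg_right (hC₆ j)
      (by positivity : 0 ≤ (1 + 2 * Y) * a₀ ^ 2)
    have h4 : C₅ * (δ * A + K * a₀) = C₅ * (δ * A) + C₅ * (K * a₀) := by ring
    linarith
  have hC₅a : ∀ j, c1pt k (e j + 1) * a₀ ≤ τ₂ / 4 * A := by
    intro j
    have h1 := mul_le_mul_of_nonneg_right (hC₅c j) (by linarith : 0 ≤ a₀)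
    have h2 : C₅ * a₀ ≤ C₅ * (K * a₀) := by
      apply mul_le_mul_of_nonneg_left _ (by linarith)
      exact le_mul_of_one_le_left (by linarith) hKr
    linarith
  have hA' : ∀ j, (1 - τ₂) * A + c1pt k (e j + 1) * (Δ j / (2 * P) ^ (e j + 2) + a₀) ≤ A := by
    intro j
    have h1 := hC₅a j
    have h2 : c1pt k (e j + 1) * (Δ j / (2 * P) ^ (e j + 2)) ≤ C₅ * (δ * A) :=
      mul_le_mul (hC₅c j) (hΔP j) (hΔP0 j) (by linarith)
    have h3 : 0 ≤ τ₂ * A := by positivity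
    linarith
  have hτA : τ₂ * A ≤ 1 / 4 * A := mul_le_mul_of_nonneg_right hτ₂1 hA0.le
  have haA : ∀ j, 2 * c1pt k (e j + 1) * a₀ ≤ A := by
    intro j
    have h1 := hC₅a j
    linarith
  have haA2 : ∀ j, 2 * cker k (e j) * ((1 + 2 * Y) * a₀ ^ 2) ≤ A := by
    intro j
    have h3 := mul_le_mul_of_nonneg_right (hC₆ j)
      (by positivity : 0 ≤ (1 + 2 * Y) * a₀ ^ 2)
    linarith
  have hLg : ∀ t : ℕ, (t : ℝ) ≤ 15 * (k:ℝ) ^ 2 * a₀ * (2 * P) → (Nat.log 2 t : ℝ) ≤ 2 * Y := by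
    intro t ht
    exact hYl Y y12 t (by rwa [ha₀, hPdef] at ht)
  -- the volume
  obtain ⟨V, hV⟩ : ∃ V : ℝ, V = (2 * ρ * P) ^ (k - s) * (2 * δ * η * P) ^ s * |Li.det| := ⟨_, rfl⟩
  obtain ⟨R, hRdef⟩ : ∃ R : ℝ, nuJ fc J xc * V / ((S * J : ℕ) : ℝ) ^ k = R := ⟨_, rfl⟩
  have hdt : cd ≤ |Li.det| := hcd H γ η fc ξ a Li hH0 hR
  have hSJQ : ((S * J : ℕ) : ℝ) ≤ Q₀ := by exact_mod_cast hq
  have hSJ0 : 0 < S * J := Nat.mul_pos hP.hS hP.hJ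
  have hRlow : cR * P ^ k ≤ R := by
    rw [hcR]
    exact R_low (by omega) hρ0 hδ0 hη0 hP0 hcd0 (nuJ_pos fc hP.hJ xc) hdt hV hSJ0 hSJQ hRdef
  have hR0 : 0 < R := lt_of_lt_of_le (by positivity) hRlow
  have hV0 : 0 ≤ V := by
    rw [hV]
    exact mul_nonneg (by positivity) (abs_nonneg _)
  have hr' := rho_lowS (e := e) (Δ := Δ) (A := A) (by omega : s ≤ k) hρ0 hδ0 hη0 hP0 hA0 hcd0
    (nuJ_pos fc hP.hJ xc) hdt hV hSJ0 hSJQ hRdef hc₀ hΔj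
  -- class members
  have hslab : ∀ A₃ : ℝ, A₃ ≤ 2 * A → ∀ g ∈ sysZ ι e A₃,
      SlabCount V τ (θ * δ * P) (fun j => ((S * J : ℕ) : ℝ) * Δ j) P ξ a ρ ρ'
        (memS fc S J g) := by
    intro A₃ hA₃ g hg
    have h1 := hreal' δ hδ0 hδ1 H P fc ξ a Li hH0 hP0 hR
      (fun j => MvPolynomial.C ((S * J : ℕ) : ℤ) * g j) (by
        intro j
        refine ((mem_sysZ.mp hg j).C_mul _).mono ?_
        rw [hqdef, Int.cast_natCast, abs_of_nonneg (by linarith : (0:ℝ) ≤ q)]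
        have h1 : (q:ℝ) * A₃ ≤ q * (2 * A) := mul_le_mul_of_nonneg_left hA₃ (by linarith)
        have h2 : (q:ℝ) * (2 * A) = 2 * η * H := by
          have : (q:ℝ) * (2 * A) = 2 * (q * A) := by ring
          rw [this, hAq]; ring
        linarith)
    rw [hk, ← hV] at h1
    have h2 : (fun j => δ * (η * H) * P ^ (e j + 2)) = (fun j => ((S * J : ℕ) : ℝ) * Δ j) := by
      funext j
      rw [hΔj, hqdef, ← hAq]; ring
    rw [h2] at h1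
    exact h1
  have hM₀ : ((S * J * K * N : ℕ) : ℝ) ≤ θ * δ * P ∧ ((S * J * N' : ℕ) : ℝ) ≤ θ * δ * P := by
    have h1 : (K * N + N' : ℝ) * Q₀ ≤ Y * (θ * δ) := by rwa [div_le_iff₀ (by positivity)] at y6
    have h2 := mul_le_mul_of_nonneg_right hPY (by positivity : 0 ≤ θ * δ)
    have h3 : (0:ℝ) ≤ K * N := by positivity
    have h4 : (0:ℝ) ≤ N' := by positivity
    have h5 := mul_le_mul_of_nonneg_right hSJQ h3
    have h6 := mul_le_mul_of_nonneg_right hSJQ h4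
    have h7 : 0 ≤ (Q₀:ℝ) * (K * N) := by positivity
    have h8 : 0 ≤ (Q₀:ℝ) * N' := by positivity
    constructor
    · push_cast at h5 ⊢
      linarith
    · push_cast at h6 ⊢
      linarith
  have hN'R : (6 * P) ^ k / N' ≤ τ * R := by
    have hN'0 : (0:ℝ) < N' := by exact_mod_cast hN'1
    rw [div_le_iff₀ hN'0, mul_pow]
    rw [div_le_iff₀ (by positivity)] at hN'r
    have h1 := mul_le_mul_of_nonneg_right hN'r (by positivity : 0 ≤ P ^ k)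
    have h2 := mul_le_mul_of_nonneg_left hRlow (by positivity : 0 ≤ (N' : ℝ) * τ)
    linarith
  have hub : ∀ U : Finset (ι → ℤ), (∀ x ∈ U, Sz (2 * P) x ∧ Prim x ∧ ¬ Bal (2 * P) a₀ x) →
      (U.card : ℝ) ≤ τ * R := by
    intro U hU
    have h1 := hYu Y y13 U (by rw [← hPdef, ← ha₀]; exact hU)
    rw [← hPdef] at h1
    have h2 := mul_le_mul_of_nonneg_left hRlow hτ0.le
    linarith
  -- cardinalities
  obtain ⟨G, hG⟩ : ∃ G : ℝ, ((sysZ ι e A).card : ℝ) = G := ⟨_, rfl⟩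
  have hA3 : 3 ≤ A := by linarith
  have hτ₂A : 1 + τ₂ ≤ τ₂ * A := by
    have h1 : 1 + 1 / τ₂ ≤ A := y10.trans hAY
    have h2 := mul_le_mul_of_nonneg_left h1 hτ₂0.le
    have h3 : τ₂ * (1 + 1 / τ₂) = 1 + τ₂ := by field_simp; ring
    linarith
  have hG0 : 0 < G := by
    rw [← hG, card_sysZ]
    have : 0 < ∏ j, (formsZ ι (e j + 2) A).card :=
      Finset.prod_pos (fun j _ => card_forms_pos _ hA0.le)
    exact_mod_cast this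
  have hG₂ : ((sysZ ι e ((1 + τ₂) * A)).card : ℝ) ≤ (1 + τ) * G := by
    have h1 := Y349.C.sys_upper ι e (A := A) (R := (1 + τ₂) * A) (c := 1 + 2 * τ₂) (by linarith)
      (by positivity) (by positivity) (by linarith)
    rw [hM, hG] at h1
    exact h1.trans (mul_le_mul_of_nonneg_right hτ₂2 hG0.le)
  have hG' : (1 - τ) * G ≤ ((sysZ ι e ((1 - τ₂) * A)).card : ℝ) := by
    have h1 := Y349.C.sys_lower ι e (A := A) (R := (1 - τ₂) * A) (c := 1 - 2 * τ₂) (by linarith)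
      (mul_nonneg (by linarith) hA0.le) (by linarith) (by linarith)
    rw [hM, hG] at h1
    exact le_trans (mul_le_mul_of_nonneg_right hτ₂3 hG0.le) h1
  have hG3A : ((sysZ ι e (3 * A)).card : ℝ) ≤ 4 ^ M * G := by
    have h1 := Y349.C.sys_upper ι e (A := A) (R := 3 * A) (c := 4) (by linarith)
      (by positivity) (by positivity) (by linarith)
    rwa [hM, hG] at h1
  have hG2A : ((sysZ ι e (2 * A)).card : ℝ) ≤ 3 ^ M * G := by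
    have h1 := Y349.C.sys_upper ι e (A := A) (R := 2 * A) (c := 3) (by linarith)
      (by positivity) (by positivity) (by linarith)
    rwa [hM, hG] at h1
  -- the bound U
  have hUY : A ^ s * P ^ (∑ j, (e j + 2)) * Y ≤ P ^ k := by
    have h1 : A ^ s * Y ≤ P := by
      rw [← hYA, ← pow_mul, ← pow_succ, hPdef]
      exact pow_le_pow_right₀ hY1 (by rw [mul_comm α s]; exact hαβ)
    have h2 : P * P ^ (∑ j, (e j + 2)) ≤ P ^ k := by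
      rw [← pow_succ']
      exact pow_le_pow_right₀ hP1 hdeg
    have h3 := mul_le_mul_of_nonneg_right h1 (by positivity : 0 ≤ P ^ (∑ j, (e j + 2)))
    linarith
  have hU2 : A ^ s * P ^ (∑ j, (e j + 2)) ≤ ∏ j, (A * (2 * P) ^ (e j + 2)) := by
    rw [Finset.prod_mul_distrib, Finset.prod_const, Finset.card_univ, Fintype.card_fin,
      Finset.prod_pow_eq_pow_sum]
    apply mul_le_mul_of_nonneg_left _ (by positivity)
    exact pow_le_pow_left₀ hP0.le (by linarith) _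
  have hU1 : (A ^ s * P ^ (∑ j, (e j + 2))) ^ 2 ≤ ∏ j, (A ^ 2 * (2 * P) ^ (2 * e j + 4)) := by
    have h1 := pow_le_pow_left₀ (by positivity) hU2 2
    refine h1.trans (le_of_eq ?_)
    rw [← Finset.prod_pow]
    apply Finset.prod_congr rfl
    intro j _
    rw [mul_pow, ← pow_mul]
    congr 2
    ring
  -- conclusion
  have hcore := class_coreS hk (by omega) hLU hTL hCt0 hCt hε hτ0 hτ1 hb0 hb1 hτF hw1 hwτ hT1 hc₀0
    hTs hNT hK hK0 hN'1 y9 (by positivity) hUY hU1 hU2 hP hρ0 hρρ' hρ'2 hR.hξ hR.hξr hV0 hRdef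
    hR0 hslab hM₀.1 hM₀.2 hN'R hA0 hP1 hub hr' ha1 haB hΔ0 hKNΔ h1Δ hA₂ hA' haA haA2 hLg hτ₂0
    hτ₂1 hG hG0 hG₂ hG' hG3A hG2A
  refine le_trans ?_ hcore
  refine card_filter_le' _ _ _ (fun g _ hg hz => hg ?_)
  obtain ⟨x, hx, hx1, hx2⟩ := hz
  have hx' := mem_boxS.mp hx
  refine ⟨x, hx1, hx2, hx'.2.1, P, hP0, fun i => ?_⟩
  refine (hx'.1 i).trans ?_
  rw [mul_comm η₀ P]
  apply mul_le_mul_of_nonneg_left _ hP0.le
  unfold wdS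
  split_ifs
  · exact hρ'η₀
  · exact hρρ'.trans hρ'η₀

end Pool.Agent.Y716.C
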