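import Pool.Agent.Y716.C.Smooth

/-!
# Zero-cycles of degree zero: enumeration
-/

namespace Pool.Agent.Y716.C

theorem exists_enum {X : Type*} (s : Multiset X) (b : X) (N : ℕ) (h : Multiset.card s ≤ N) :
    ∃ A : Fin N → X, (∑ i, Finsupp.single (A i) (1 : ℤ)) =
      (s.map (fun x => Finsupp.single x (1 : ℤ))).sum + (N - Multiset.card s : ℤ) •
        Finsupp.single b (1 : ℤ) := by
  classical
  induction N generalizing s with
  | zero =>
    have h0 : s = 0 := Multiset.card_eq_zero.mp (Nat.le_zero.mp h)
    subst h0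
    exact ⟨Fin.elim0, by simp⟩
  | succ N ih =>
    by_cases hs : Multiset.card s = N + 1
    · obtain ⟨x, hx⟩ : ∃ x, x ∈ s := Multiset.card_pos_iff_exists_mem.mp (by omega)
      obtain ⟨t, rfl⟩ := Multiset.exists_cons_of_mem hx
      rw [Multiset.card_cons] at hs h
      obtain ⟨A, hA⟩ := ih t (by omega)
      refine ⟨Fin.cons x A, ?_⟩
      rw [Fin.sum_univ_succ]
      simp only [Fin.cons_zero, Fin.cons_succ]
      rw [hA, Multiset.map_cons, Multiset.sum_cons, Multiset.card_cons]
      push_cast
      rw [show (N + 1 - (Multiset.card t + 1) : ℤ) = N - Multiset.card t by ring]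
      abel
    · obtain ⟨A, hA⟩ := ih s (by omega)
      refine ⟨Fin.cons b A, ?_⟩
      rw [Fin.sum_univ_succ]
      simp only [Fin.cons_zero, Fin.cons_succ]
      rw [hA]
      push_cast
      rw [show (N + 1 - Multiset.card s : ℤ) = (N - Multiset.card s) + 1 by ring, add_smul,
        one_smul]
      abel

/-- a cycle of degree zero is a difference of two sums of `N` points -/
theorem exists_diff {X : Type*} (w : X →₀ ℤ) (hw : w.sum (fun _ c => c) = 0) (b : X) :
    ∃ N₀ : ℕ, ∀ N, N₀ ≤ N → ∃ A B : Fin N → X,
      w = (∑ i, Finsupp.single (A i) (1 : ℤ)) - ∑ i, Finsupp.single (B i) (1 : ℤ) := by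
  classical
  obtain ⟨s, t, hst⟩ : ∃ s t : Multiset X,
      w = (s.map (fun x => Finsupp.single x (1 : ℤ))).sum -
        (t.map (fun x => Finsupp.single x (1 : ℤ))).sum := by
    clear hw
    induction w using Finsupp.induction_linear with
    | zero => exact ⟨0, 0, by simp⟩
    | add f g hf hg =>
      obtain ⟨s, t, h1⟩ := hf
      obtain ⟨s', t', h2⟩ := hg
      refine ⟨s + s', t + t', ?_⟩
      rw [h1, h2, Multiset.map_add, Multiset.map_add, Multiset.sum_add, Multiset.sum_add]
      abel
    | single a c =>
      refine ⟨Multiset.replicate c.toNat a, Multiset.replicate (-c).toNat a, ?_⟩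
      rw [Multiset.map_replicate, Multiset.map_replicate, Multiset.sum_replicate,
        Multiset.sum_replicate, Finsupp.smul_single, Finsupp.smul_single, ← Finsupp.single_sub]
      congr 1
      simp only [nsmul_eq_mul, mul_one]
      omega
  have hdeg : ∀ s : Multiset X,
      ((s.map (fun x => Finsupp.single x (1 : ℤ))).sum).sum (fun _ c => c) =
        (Multiset.card s : ℤ) := by
    intro s
    induction s using Multiset.induction_on with
    | empty => simp
    | cons a s ih =>
      rw [Multiset.map_cons, Multiset.sum_cons, Finsupp.sum_add_index' (fun _ => rfl)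
        (fun _ _ _ => rfl), ih, Finsupp.sum_single_index rfl, Multiset.card_cons]
      push_cast; ring
  have hcard : Multiset.card s = Multiset.card t := by
    have h1 : w + (t.map (fun x => Finsupp.single x (1 : ℤ))).sum =
        (s.map (fun x => Finsupp.single x (1 : ℤ))).sum := by rw [hst]; abel
    have h2 := congrArg (fun z : X →₀ ℤ => z.sum (fun _ c => c)) h1
    rw [Finsupp.sum_add_index' (fun _ => rfl) (fun _ _ _ => rfl), hw, hdeg, hdeg, zero_add] at h2
    exact_mod_cast h2.symm
  refine ⟨Multiset.card s, fun N hN => ?_⟩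
  obtain ⟨A, hA⟩ := exists_enum s b N hN
  obtain ⟨B, hB⟩ := exists_enum t b N (by omega)
  refine ⟨A, B, ?_⟩
  rw [hA, hB, hst, hcard]
  abel

end Pool.Agent.Y716.C
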