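import Pool.Agent.Y716.C.Defs

/-!
# The contribution of pairs of test vectors in general position, systems
-/

namespace Pool.Agent.Y716.C

open Pool.Agent.Y716.Q

variable {ι : Type*} [Fintype ι] {s : ℕ}

/-- product of the counts of the forms -/
theorem prod_card_filter {e : Fin s → ℕ} {A : ℝ} (q : Fin s → MvPolynomial ι ℤ → Prop)
    [∀ j, DecidablePred (q j)] :
    ∏ j, (((formsZ ι (e j + 2) A).filter (q j)).card : ℝ) =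
      (((sysZ ι e A).filter (fun g => ∀ j, q j (g j))).card : ℝ) := by
  have h1 : (sysZ ι e A).filter (fun g => ∀ j, q j (g j)) =
      Fintype.piFinset (fun j => (formsZ ι (e j + 2) A).filter (q j)) := by
    ext g
    unfold sysZ
    rw [Finset.mem_filter, Fintype.mem_piFinset, Fintype.mem_piFinset]
    simp only [Finset.mem_filter]
    exact ⟨fun h j => ⟨h.1 j, h.2 j⟩, fun h => ⟨fun j => (h j).1, fun j => (h j).2⟩⟩
  rw [h1, Fintype.card_piFinset]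
  push_cast
  rfl

theorem mem_locSetS_of {fc : Fin s → MvPolynomial ι ℤ} {S J : ℕ} {xc : ι → ℤ}
    {P : ℝ} {ξ : ι → ℝ} {a : Fin s → ι} {ρ ρ' : ℝ} {Δ : Fin s → ℝ} {x : ι → ℤ}
    (hx : x ∈ boxS P ξ a ρ ρ' S J xc fc)
    {g : Fin s → MvPolynomial ι ℤ} {u : Fin s → ℤ}
    (hu : ∀ j, MvPolynomial.eval x (fc j) = -(((S * J : ℕ) : ℤ) * u j))
    {K D : ℕ} {ζ : ι → ℤ}
    (h : ∀ j, (K : ℤ) ∣ MvPolynomial.eval x (g j) - u j ∧
      |((MvPolynomial.eval x (g j) - u j : ℤ) : ℝ)| ≤ Δ j) (hD : ∀ i, (D : ℤ) ∣ x i - ζ i) :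
    x ∈ locSetS P ξ a ρ ρ' S J xc fc (memS fc S J g) K D ζ (fun j => (S * J : ℕ) * Δ j) := by
  classical
  unfold locSetS
  rw [Finset.mem_filter]
  refine ⟨hx, hD, fun j => ?_⟩
  have hev : MvPolynomial.eval x (memS fc S J g j) =
      ((S * J : ℕ) : ℤ) * (MvPolynomial.eval x (g j) - u j) := by
    unfold memS mem'
    rw [map_add, map_mul, MvPolynomial.eval_C, hu j]; ring
  refine ⟨?_, ?_⟩
  · rw [hev, Nat.cast_mul (S * J) K]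
    exact mul_dvd_mul_left _ (h j).1
  · rw [hev, Int.cast_mul, abs_mul]
    have h1 : |(((S * J : ℕ) : ℤ) : ℝ)| = ((S * J : ℕ) : ℝ) := by
      rw [Int.cast_natCast, abs_of_nonneg (Nat.cast_nonneg _)]
    rw [h1]
    exact mul_le_mul_of_nonneg_left (h j).2 (Nat.cast_nonneg _)

open scoped Classical in
theorem good_sum_DS (e : Fin s → ℕ) {w : ℕ} {fc : Fin s → MvPolynomial ι ℤ} {S J : ℕ}
    {xc : ι → ℤ}
    {P : ℝ} {ξ : ι → ℝ} {a : Fin s → ι} {ρ ρ' B a₀ A A₂ κ : ℝ} {Δ : Fin s → ℝ} (ha : 1 ≤ a₀)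
    (haB : a₀ ≤ B) (hκ : 0 < κ)
    {Lg : ℝ}
    (hLg : ∀ s : ℕ, (s : ℝ) ≤ 15 * (Fintype.card ι) ^ 2 * a₀ * B → (Nat.log 2 s : ℝ) ≤ Lg)
    (u : Fin s → (ι → ℤ) → ℤ)
    (hu : ∀ x ∈ boxS P ξ a ρ ρ' S J xc fc, ∀ j,
      MvPolynomial.eval x (fc j) = -(((S * J : ℕ) : ℤ) * u j x))
    {K N D : ℕ} (hK : 0 < K) (hD : 0 < D) (hΔ : ∀ j, 0 ≤ Δ j) (hΔK : ∀ j, K * D ≤ Δ j)
    (hA : ∀ j, A + (c1pt (Fintype.card ι) (e j + 1) + cker (Fintype.card ι) (e j) *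
      (1 + (mons ι (e j + 2)).card * c1pt (Fintype.card ι) (e j + 1)) / κ) *
      (Δ j / B ^ (e j + 2) + K * a₀) + cker (Fintype.card ι) (e j) * ((1 + Lg) * a₀ ^ 2) ≤ A₂)
    {R₁ R₂ : ℝ} (hR₂ : 0 ≤ R₂)
    (hL1 : ∀ g ∈ sysZ ι e A₂,
      ((locSetS P ξ a ρ ρ' S J xc fc (memS fc S J g) K 1 0
        (fun j => (S * J : ℕ) * Δ j)).card : ℝ) ≤ R₁)
    (hL2 : ∀ g ∈ sysZ ι e A₂, ∀ ζ,
      ((locSetS P ξ a ρ ρ' S J xc fc (memS fc S J g) K D ζ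
        (fun j => (S * J : ℕ) * Δ j)).card : ℝ) ≤ R₂)
    (Gd : Finset ((ι → ℤ) × (ι → ℤ)))
    (hGd : ∀ p ∈ Gd, p.1 ∈ testSetS B a₀ P ξ a ρ ρ' S J xc fc ∧
      p.2 ∈ testSetS B a₀ P ξ a ρ ρ' S J xc fc ∧ GoodPair w K N B κ p D) :
    (∑ p ∈ Gd, ∏ j, (c2 (e j) A (u j) p : ℝ)) *
      (∏ j, ((2 * Δ j / K - 1) * (2 * Δ j / (K * D) - 1))) ≤
      (sysZ ι e A₂).card * (R₁ * (D * R₂)) := by
  have hlam : ∀ p ∈ Gd, ∃ c : ℕ, c < D ∧ ∀ i, (D : ℤ) ∣ p.2 i - c * p.1 i := by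
    intro p hp
    obtain ⟨h1, h2, g, hg0, hg1, hg2, hg3, hg4, hg5, hg6, hg7, hg8⟩ := hGd p hp
    exact exists_lambda (mem_testSetS.mp h1).2.2.1 hD (fun i j => hg6.trans (hg1 i j))
  choose! lam hlam1 hlam2 using hlam
  obtain ⟨Δ₁, hΔ₁⟩ : ∃ Δ₁ : Fin s → ℝ, Δ₁ = fun j => ((S * J : ℕ) : ℝ) * Δ j := ⟨_, rfl⟩
  rw [← hΔ₁] at hL1 hL2
  set Loc : (Fin s → MvPolynomial ι ℤ) → Finset (ι → ℤ) := fun g =>
    locSetS P ξ a ρ ρ' S J xc fc (memS fc S J g) K 1 0 Δ₁ with hLoc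
  set LocD : (Fin s → MvPolynomial ι ℤ) → (ι → ℤ) → Finset (ι → ℤ) := fun g ζ =>
    locSetS P ξ a ρ ρ' S J xc fc (memS fc S J g) K D ζ Δ₁ with hLocD
  have hKr : (0:ℝ) < K := by exact_mod_cast hK
  have hDr : (1:ℝ) ≤ D := by exact_mod_cast hD
  have hwin : ∀ j, 0 ≤ (2 * Δ j / K - 1) * (2 * Δ j / (K * D) - 1) := by
    intro j
    have h1 := hΔK j
    have h2 : (K:ℝ) ≤ K * D := le_mul_of_one_le_right hKr.le hDr
    have h3 := hΔ j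
    apply mul_nonneg
    · rw [sub_nonneg, le_div_iff₀ hKr]; linarith
    · rw [sub_nonneg, le_div_iff₀ (by positivity)]; linarith
  have hA1 : ∀ p ∈ Gd, (∏ j, (c2 (e j) A (u j) p : ℝ)) *
      (∏ j, ((2 * Δ j / K - 1) * (2 * Δ j / (K * D) - 1))) ≤
      (((sysZ ι e A₂).filter
        (fun g => p.1 ∈ Loc g ∧ p.2 ∈ LocD g (fun i => (lam p : ℤ) * p.1 i))).card : ℝ) := by
    intro p hp
    obtain ⟨h1, h2, g, hg0, hg1, hg2, hg3, hg4, hg5, hg6, hg7, hg8⟩ := hGd p hp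
    obtain ⟨hx1, hx2, hx3, hx4⟩ := mem_testSetS.mp h1
    obtain ⟨hy1, hy2, hy3, hy4⟩ := mem_testSetS.mp h2
    rw [← Finset.prod_mul_distrib]
    have key : ∀ j, (c2 (e j) A (u j) p : ℝ) *
        ((2 * Δ j / K - 1) * (2 * Δ j / (K * D) - 1)) ≤
        (((formsZ ι (e j + 2) A₂).filter
        (fun f => ((K : ℤ) ∣ MvPolynomial.eval p.1 f - u j p.1 ∧
          |((MvPolynomial.eval p.1 f - u j p.1 : ℤ) : ℝ)| ≤ Δ j) ∧
          ((K : ℤ) ∣ MvPolynomial.eval p.2 f - u j p.2 ∧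
          |((MvPolynomial.eval p.2 f - u j p.2 : ℤ) : ℝ)| ≤ Δ j))).card : ℝ) := fun j =>
      cnt2_cond (e j) hx4 hx2 hx3 hy4 hy2 ha haB hg0 hg1 hg2 hκ hg3 hLg (u j p.1) (u j p.2)
        hK hD hg7 (hΔ j) (hΔK j) (hA j)
    refine (Finset.prod_le_prod (fun j _ => mul_nonneg (Nat.cast_nonneg _) (hwin j))
      (fun j _ => key j)).trans ?_
    rw [prod_card_filter
      (fun j f => ((K : ℤ) ∣ MvPolynomial.eval p.1 f - u j p.1 ∧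
          |((MvPolynomial.eval p.1 f - u j p.1 : ℤ) : ℝ)| ≤ Δ j) ∧
          ((K : ℤ) ∣ MvPolynomial.eval p.2 f - u j p.2 ∧
          |((MvPolynomial.eval p.2 f - u j p.2 : ℤ) : ℝ)| ≤ Δ j))]
    apply Nat.cast_le.mpr
    apply Finset.card_le_card
    intro f hf
    rw [Finset.mem_filter] at hf ⊢
    refine ⟨hf.1, ?_, ?_⟩
    · rw [hLoc, hΔ₁]
      exact mem_locSetS_of hx1 (hu _ hx1) (fun j => (hf.2 j).1) (fun i => by simp)
    · rw [hLocD, hΔ₁]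
      exact mem_locSetS_of hy1 (hu _ hy1) (fun j => (hf.2 j).2) (hlam2 p hp)
  have hB1 : ∑ p ∈ Gd, (((sysZ ι e A₂).filter
      (fun g => p.1 ∈ Loc g ∧ p.2 ∈ LocD g (fun i => (lam p : ℤ) * p.1 i))).card : ℝ) =
      ∑ g ∈ sysZ ι e A₂, ((Gd.filter
        (fun p => p.1 ∈ Loc g ∧ p.2 ∈ LocD g (fun i => (lam p : ℤ) * p.1 i))).card : ℝ) := by
    simp only [Finset.card_filter, Nat.cast_sum]
    exact Finset.sum_comm
  have hB2 : ∀ g ∈ sysZ ι e A₂, ((Gd.filter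
        (fun p => p.1 ∈ Loc g ∧ p.2 ∈ LocD g (fun i => (lam p : ℤ) * p.1 i))).card : ℝ) ≤
        R₁ * (D * R₂) := by
    intro g hg
    have hsub : (Gd.filter (fun p => p.1 ∈ Loc g ∧ p.2 ∈ LocD g (fun i => (lam p : ℤ) * p.1 i))) ⊆
        ((Loc g) ×ˢ (Finset.range D)).biUnion
          (fun r => (LocD g (fun i => ((r.2 : ℕ) : ℤ) * r.1 i)).image (fun y => (r.1, y))) := by
      intro p hp
      rw [Finset.mem_filter] at hp
      rw [Finset.mem_biUnion]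
      refine ⟨(p.1, lam p), ?_, ?_⟩
      · rw [Finset.mem_product]
        exact ⟨hp.2.1, Finset.mem_range.mpr (hlam1 p hp.1)⟩
      · rw [Finset.mem_image]
        exact ⟨p.2, hp.2.2, rfl⟩
    have h1 := (Finset.card_le_card hsub).trans Finset.card_biUnion_le
    have h1' := (Nat.cast_le (α := ℝ)).mpr h1
    rw [Nat.cast_sum] at h1'
    refine h1'.trans ?_
    have h2 : ∀ r ∈ (Loc g) ×ˢ (Finset.range D),
        (((LocD g (fun i => ((r.2 : ℕ) : ℤ) * r.1 i)).image (fun y => (r.1, y))).card : ℝ) ≤ R₂ := by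
      intro r _
      refine le_trans ?_ (hL2 g hg (fun i => ((r.2 : ℕ) : ℤ) * r.1 i))
      exact_mod_cast Finset.card_image_le
    refine (Finset.sum_le_sum h2).trans ?_
    rw [Finset.sum_const, nsmul_eq_mul, Finset.card_product, Finset.card_range]
    push_cast
    rw [mul_assoc]
    apply mul_le_mul_of_nonneg_right (hL1 g hg) (by positivity)
  rw [Finset.sum_mul]
  refine (Finset.sum_le_sum hA1).trans ?_
  rw [hB1]
  refine (Finset.sum_le_sum hB2).trans ?_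
  rw [Finset.sum_const, nsmul_eq_mul]

open scoped Classical in
theorem good_sumS (e : Fin s → ℕ) {w : ℕ} (hw : 1 ≤ w) {fc : Fin s → MvPolynomial ι ℤ}
    {S J : ℕ} {xc : ι → ℤ}
    {P : ℝ} {ξ : ι → ℝ} {a : Fin s → ι} {ρ ρ' B a₀ A A₂ κ : ℝ} {Δ : Fin s → ℝ} (ha : 1 ≤ a₀)
    (haB : a₀ ≤ B) (hκ : 0 < κ)
    {Lg : ℝ}
    (hLg : ∀ s : ℕ, (s : ℝ) ≤ 15 * (Fintype.card ι) ^ 2 * a₀ * B → (Nat.log 2 s : ℝ) ≤ Lg)
    (u : Fin s → (ι → ℤ) → ℤ)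
    (hu : ∀ x ∈ boxS P ξ a ρ ρ' S J xc fc, ∀ j,
      MvPolynomial.eval x (fc j) = -(((S * J : ℕ) : ℤ) * u j x))
    {K N : ℕ} (hK : 0 < K) (hΔ : ∀ j, 0 ≤ Δ j) (hΔK : ∀ j, K * N ≤ Δ j)
    (hA : ∀ j, A + (c1pt (Fintype.card ι) (e j + 1) + cker (Fintype.card ι) (e j) *
      (1 + (mons ι (e j + 2)).card * c1pt (Fintype.card ι) (e j + 1)) / κ) *
      (Δ j / B ^ (e j + 2) + K * a₀) + cker (Fintype.card ι) (e j) * ((1 + Lg) * a₀ ^ 2) ≤ A₂)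
    {R₁ E : ℝ} {R₂ : ℕ → ℝ} (hR₂ : ∀ D, 0 ≤ R₂ D) (hE : 0 ≤ E)
    (hL1 : ∀ g ∈ sysZ ι e A₂,
      ((locSetS P ξ a ρ ρ' S J xc fc (memS fc S J g) K 1 0
        (fun j => (S * J : ℕ) * Δ j)).card : ℝ) ≤ R₁)
    (hL2 : ∀ D : ℕ, 0 < D → D ≤ N → (∀ q : ℕ, q.Prime → q ≤ w → ¬ q ∣ D) →
      ∀ g ∈ sysZ ι e A₂, ∀ ζ,
      ((locSetS P ξ a ρ ρ' S J xc fc (memS fc S J g) K D ζ
        (fun j => (S * J : ℕ) * Δ j)).card : ℝ) ≤ R₂ D)
    (hED : ∀ D : ℕ, 0 < D → D ≤ N → (sysZ ι e A₂).card * (R₁ * (D * R₂ D)) ≤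
      (sysZ ι e A).card * (E * (1 / (D : ℝ) ^ 2)) *
        (∏ j, ((2 * Δ j / K - 1) * (2 * Δ j / (K * D) - 1))))
    (Gd : Finset ((ι → ℤ) × (ι → ℤ)))
    (hGd : ∀ p ∈ Gd, p.1 ∈ testSetS B a₀ P ξ a ρ ρ' S J xc fc ∧
      p.2 ∈ testSetS B a₀ P ξ a ρ ρ' S J xc fc ∧ ∃ D, GoodPair w K N B κ p D) :
    ∑ p ∈ Gd, ∏ j, (c2 (e j) A (u j) p : ℝ) ≤ (sysZ ι e A).card * E * (1 + 1 / w) := by
  choose! Df hDf using fun p hp => (hGd p hp).2.2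
  set 𝒟 := Gd.image Df with h𝒟
  have hKr : (1:ℝ) ≤ K := by exact_mod_cast hK
  have h𝒟p : ∀ D ∈ 𝒟, 0 < D ∧ D ≤ N ∧ (∀ q : ℕ, q.Prime → q ≤ w → ¬ q ∣ D) := by
    intro D hD
    obtain ⟨p, hp, rfl⟩ := Finset.mem_image.mp hD
    obtain ⟨g, hg0, hg1, hg2, hg3, hg4, hg5, hg6, hg7, hg8⟩ := hDf p hp
    exact ⟨hg4, hg5, hg8⟩
  rw [← Finset.sum_fiberwise_of_maps_to (fun p hp => Finset.mem_image_of_mem Df hp :
    ∀ p ∈ Gd, Df p ∈ 𝒟)]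
  have hterm : ∀ D ∈ 𝒟, ∑ p ∈ Gd.filter (fun p => Df p = D), ∏ j, (c2 (e j) A (u j) p : ℝ) ≤
      (sysZ ι e A).card * E * (1 / (D : ℝ) ^ 2) := by
    intro D hD
    obtain ⟨hD1, hD2, hD3⟩ := h𝒟p D hD
    have hD1r : (1:ℝ) ≤ D := by exact_mod_cast hD1
    have hKD : ∀ j, (K:ℝ) * D ≤ Δ j := by
      intro j
      have h0 : (D:ℝ) ≤ N := by exact_mod_cast hD2
      have h1 := mul_le_mul_of_nonneg_left h0 (by linarith : (0:ℝ) ≤ K)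
      linarith [hΔK j]
    have key := good_sum_DS e ha haB hκ hLg u hu hK hD1 hΔ hKD hA (hR₂ D) hL1
      (hL2 D hD1 hD2 hD3) (Gd.filter (fun p => Df p = D)) (by
        intro p hp
        rw [Finset.mem_filter] at hp
        have h1 := hGd p hp.1
        refine ⟨h1.1, h1.2.1, ?_⟩
        rw [← hp.2]
        exact hDf p hp.1)
    have key2 := key.trans (hED D hD1 hD2)
    have hpos : 0 < ∏ j, ((2 * Δ j / K - 1) * (2 * Δ j / (K * D) - 1)) := by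
      apply Finset.prod_pos
      intro j _
      have h2 := hKD j
      have h3 : (0:ℝ) < K * D := by positivity
      have h4 : (K:ℝ) ≤ K * D := le_mul_of_one_le_right (by linarith) hD1r
      apply mul_pos
      · rw [sub_pos, lt_div_iff₀ (by linarith)]
        linarith
      · rw [sub_pos, lt_div_iff₀ (by positivity)]
        linarith
    have := le_of_mul_le_mul_right key2 hpos
    refine this.trans (le_of_eq ?_)
    ring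
  refine (Finset.sum_le_sum hterm).trans ?_
  rw [← Finset.mul_sum]
  apply mul_le_mul_of_nonneg_left _ (by positivity)
  exact sum_D_bound hw 𝒟 (fun D hD => ⟨(h𝒟p D hD).2.1, one_or_gt (h𝒟p D hD).1 (h𝒟p D hD).2.2⟩)

end Pool.Agent.Y716.C
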