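import Pool.Agent.Y716.C.ClassThm
import Pool.Agent.Y419.C.Tail
import Pool.Agent.Y815.C.LocUp
import Pool.Agent.Y665.C.TestLow
import Pool.Agent.Y592.C.Slab
import Pool.Agent.Y43.C.Real
import Pool.Agent.Y232.CS.Bad
import Pool.Agent.Y407.C.BadReal
import Pool.Agent.Y813.C5.Stable
import Pool.Agent.Z864.C.Minor
import Pool.Agent.Y363.C7.Exc2
import Pool.Agent.Y487.C8.All
import Pool.Agent.Y438.C.WA

/-!
# Systems of integral forms: the main theorems
-/

namespace Pool.Agent.Y716.C

open Pool.Agent.Y716.Q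

variable (ι : Type*) [Fintype ι] {s : ℕ} (hs : 1 ≤ s) (h2s : 2 * s + 2 ≤ Fintype.card ι)
  (e : Fin s → ℕ) (hdeg : ∑ j, (e j + 2) + 1 ≤ Fintype.card ι)

include hs h2s hdeg

/-- The class theorem for systems. -/
theorem class_systems : ClassStmtS ι e := by
  have hLU := Y815.C.loc_upper ι s (by omega)
  exact class_systems_of ι hs h2s e hdeg hLU (Y665.C.test_lower ι s (by omega) (by omega) hLU)
    (Y419.C.tail_pow ι s hs (by omega)) (Y43.C.real_of_slab ι e (Y592.C.slab_lemma ι s))

theorem exc_systems : ExcStmtS ι e :=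
  Y363.C7.exc_sys ι hs e (class_systems ι hs h2s e hdeg) (Y232.CS.bad_int ι e)
    (Y407.C4.bad_real ι e) (Y813.C5.stable ι s) (Z864.C.minor ι s)

theorem pos_systems : PosStmtS ι e :=
  Y487.C8.pos_sys ι hs (by omega) e (class_systems ι hs h2s e hdeg)

/-- The Hasse principle holds for almost all systems. -/
theorem hp_systems : HPStmtS ι e :=
  Y487.C8.hp_sys ι hs e (exc_systems ι hs h2s e hdeg) (pos_systems ι hs h2s e hdeg)

/-- Weak approximation holds for almost all systems. -/
theorem wa_systems : WAStmtS ι e :=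
  Y438.C.wa_sys ι hs e (exc_systems ι hs h2s e hdeg) (pos_systems ι hs h2s e hdeg)

end Pool.Agent.Y716.C
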