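import Pool.Agent.Y716.C.Good

/-!
# The second moment, systems
-/

namespace Pool.Agent.Y716.C

open Pool.Agent.Y716.Q

/-- the conclusion of the second moment computation -/
def SMS (ι : Type*) [Fintype ι] {s : ℕ} (e : Fin s → ℕ) (Ct : ℝ) : Prop :=
  ∀ (w : ℕ) (_ : 1 ≤ w) (fc : Fin s → MvPolynomial ι ℤ) (S J : ℕ) (xc : ι → ℤ)
    (P : ℝ) (ξ : ι → ℝ) (a : Fin s → ι) (ρ ρ' B a₀ A A₂ T : ℝ) (Δ : Fin s → ℝ) (_ : 1 ≤ a₀)
    (_ : a₀ ≤ B) (_ : 1 ≤ T)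
    (Lg : ℝ)
    (_ : ∀ s : ℕ, (s : ℝ) ≤ 15 * (Fintype.card ι) ^ 2 * a₀ * B → (Nat.log 2 s : ℝ) ≤ Lg)
    (u : Fin s → (ι → ℤ) → ℤ)
    (_ : ∀ x ∈ boxS P ξ a ρ ρ' S J xc fc, ∀ j,
      MvPolynomial.eval x (fc j) = -(((S * J : ℕ) : ℤ) * u j x))
    (N : ℕ) (_ : 2 * T ≤ N) (K : ℕ)
    (_ : K = (∏ p ∈ (Finset.range (w + 1)).filter Nat.Prime, p) ^ N)
    (_ : ∀ j, 0 ≤ Δ j) (_ : ∀ j, K * N ≤ Δ j)
    (_ : ∀ j, A + (c1pt (Fintype.card ι) (e j + 1) + cker (Fintype.card ι) (e j) *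
      (1 + (mons ι (e j + 2)).card * c1pt (Fintype.card ι) (e j + 1)) / (1 / T)) *
      (Δ j / B ^ (e j + 2) + K * a₀) + cker (Fintype.card ι) (e j) * ((1 + Lg) * a₀ ^ 2) ≤ A₂)
    (_ : ∀ j, 2 * c1pt (Fintype.card ι) (e j + 1) * a₀ ≤ A)
    (_ : ∀ j, 2 * cker (Fintype.card ι) (e j) * ((1 + Lg) * a₀ ^ 2) ≤ A)
    (R₁ E : ℝ) (R₂ : ℕ → ℝ) (_ : ∀ D, 0 ≤ R₂ D) (_ : 0 ≤ E)
    (_ : ∀ g ∈ sysZ ι e A₂,
      ((locSetS P ξ a ρ ρ' S J xc fc (memS fc S J g) K 1 0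
        (fun j => (S * J : ℕ) * Δ j)).card : ℝ) ≤ R₁)
    (_ : ∀ D : ℕ, 0 < D → D ≤ N → (∀ q : ℕ, q.Prime → q ≤ w → ¬ q ∣ D) →
      ∀ g ∈ sysZ ι e A₂, ∀ ζ,
      ((locSetS P ξ a ρ ρ' S J xc fc (memS fc S J g) K D ζ
        (fun j => (S * J : ℕ) * Δ j)).card : ℝ) ≤ R₂ D)
    (_ : ∀ D : ℕ, 0 < D → D ≤ N → (sysZ ι e A₂).card * (R₁ * (D * R₂ D)) ≤
      (sysZ ι e A).card * (E * (1 / (D : ℝ) ^ 2)) *
        (∏ j, ((2 * Δ j / K - 1) * (2 * Δ j / (K * D) - 1)))),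
    ∑ p ∈ (testSetS B a₀ P ξ a ρ ρ' S J xc fc) ×ˢ (testSetS B a₀ P ξ a ρ ρ' S J xc fc),
        ∏ j, (c2 (e j) A (u j) p : ℝ) ≤
      (sysZ ι e A).card * E * (1 + 1 / w) +
      Ct * (sysZ ι e (3 * A)).card * B ^ (2 * Fintype.card ι) /
        ((∏ j, (A ^ 2 * B ^ (2 * e j + 4))) * Real.sqrt T) +
      Ct * (sysZ ι e (2 * A)).card * (testSetS B a₀ P ξ a ρ ρ' S J xc fc).card /
        (∏ j, (A * B ^ (e j + 2)))

theorem tail_alg {c c' g F A B μ : ℝ} (e : ℕ) (hA : A ≠ 0) (hB : B ≠ 0) (hμ : μ ≠ 0) :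
    4 * c * c' * g * F / ((A * B ^ (e + 2)) * (A * B ^ e * μ)) =
      4 * c * c' * F / (A ^ 2 * B ^ (2 * e + 4)) * (B ^ 2 * g / μ) := by
  have : B ^ (2 * e + 4) = B ^ (e + 2) * B ^ e * B ^ 2 := by
    rw [← pow_add, ← pow_add]; congr 1; ring
  rw [this]
  field_simp

/-- The second moment. -/
theorem second_momentS (ι : Type*) [Fintype ι] {s : ℕ} (hk0 : 0 < Fintype.card ι)
    (htl : TailStmt ι s) (e : Fin s → ℕ) : ∃ Ct : ℝ, 0 < Ct ∧ SMS ι e Ct := by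
  classical
  obtain ⟨C₀, hC₀, htail⟩ := htl
  obtain ⟨k, hk⟩ : ∃ k, Fintype.card ι = k := ⟨_, rfl⟩
  rw [hk] at hk0
  obtain ⟨c, hc⟩ : ∃ c : Fin s → ℝ, c = fun j => c1pt k (e j + 1) := ⟨_, rfl⟩
  have hcj : ∀ j, c1pt k (e j + 1) = c j := fun j => by rw [hc]
  have hc0 : ∀ j, 0 < c j := by intro j; rw [← hcj]; unfold c1pt; positivity
  obtain ⟨c', hc'⟩ : ∃ c' : Fin s → ℝ, c' = fun j => cker k (e j) := ⟨_, rfl⟩
  have hc'j : ∀ j, cker k (e j) = c' j := fun j => by rw [hc']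
  have hc'0 : ∀ j, 0 < c' j := by intro j; rw [← hc'j]; unfold cker c1pt; positivity
  obtain ⟨C₁, hC₁⟩ : ∃ C₁ : ℝ, C₁ = ∏ j, (4 * c j * c' j) := ⟨_, rfl⟩
  obtain ⟨C₂, hC₂⟩ : ∃ C₂ : ℝ, C₂ = ∏ j, (2 * c j) := ⟨_, rfl⟩
  have hC₁0 : 0 < C₁ := by
    rw [hC₁]
    exact Finset.prod_pos (fun j _ => by have := hc0 j; have := hc'0 j; positivity)
  have hC₂0 : 0 < C₂ := by
    rw [hC₂]
    exact Finset.prod_pos (fun j _ => by have := hc0 j; positivity)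
  refine ⟨C₁ * C₀ + 2 * C₂, by positivity, ?_⟩
  intro w hw fc S J xc P ξ a ρ ρ' B a₀ A A₂ T Δ ha haB hT Lg hLg u hu N hTN K hKdef hΔ hΔK hA
    haA haA2 R₁ E R₂ hR₂ hE hL1 hL2 hED
  simp only [hk, hcj] at haA
  simp only [hk, hc'j] at haA2
  rw [hk]
  have hB : 1 ≤ B := ha.trans haB
  have hB0 : 0 < B := by linarith
  have hT0 : 0 < T := by linarith
  have hAp : 0 ≤ A ∨ IsEmpty (Fin s) := by
    by_cases hs : Nonempty (Fin s)
    · left
      obtain ⟨j⟩ := hs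
      have := haA j
      have h1 := hc0 j
      exact le_trans (by positivity : 0 ≤ 2 * c j * a₀) this
    · right; exact not_nonempty_iff.mp hs
  have hApj : ∀ j : Fin s, 0 < A := fun j =>
    lt_of_lt_of_le (by have := hc0 j; positivity : 0 < 2 * c j * a₀) (haA j)
  have hK0 : 0 < K := by
    rw [hKdef]
    apply pow_pos
    apply Finset.prod_pos
    intro p hp
    exact (Finset.mem_filter.mp hp).2.pos
  set X' := testSetS B a₀ P ξ a ρ ρ' S J xc fc with hX'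
  obtain ⟨F, hF⟩ : ∃ F : (ι → ℤ) × (ι → ℤ) → ℝ, F = fun p => ∏ j, (c2 (e j) A (u j) p : ℝ) :=
    ⟨_, rfl⟩
  have hFp : ∀ p, ∏ j, (c2 (e j) A (u j) p : ℝ) = F p := fun p => by rw [hF]
  have hdata : ∀ p : (ι → ℤ) × (ι → ℤ), (∃ i j, mn p.1 p.2 i j ≠ 0) →
      ∃ (g : ℤ) (μ : ℝ), g ≠ 0 ∧ (∀ i j, g ∣ mn p.1 p.2 i j) ∧
      (∀ D, (∀ i j, D ∣ mn p.1 p.2 i j) → D ∣ g) ∧ 0 < μ ∧
      (∃ i j, μ ≤ |(mn p.1 p.2 i j : ℝ)|) ∧
      (∀ i j, |(mn p.1 p.2 i j : ℝ)| ≤ μ) ∧ |(g : ℝ)| ≤ μ := fun p hp => exists_gcd_data hp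
  choose! gf μf hg0 hg1 hg2 hg3 hg4 hg5 hg6 using hdata
  set Pr := (X' ×ˢ X').filter (fun p => ∀ i j, mn p.1 p.2 i j = 0) with hPr
  set Np := (X' ×ˢ X').filter (fun p => ¬ ∀ i j, mn p.1 p.2 i j = 0) with hNp
  set Gd := Np.filter (fun p => B ^ 2 * |(gf p : ℝ)| ≤ T * μf p) with hGd
  set Tl := Np.filter (fun p => ¬ B ^ 2 * |(gf p : ℝ)| ≤ T * μf p) with hTl
  have hNp' : ∀ p ∈ Np, p.1 ∈ X' ∧ p.2 ∈ X' ∧ ∃ i j, mn p.1 p.2 i j ≠ 0 := by
    intro p hp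
    rw [hNp, Finset.mem_filter, Finset.mem_product] at hp
    push Not at hp
    exact ⟨hp.1.1, hp.1.2, hp.2⟩
  have hμB : ∀ p ∈ Np, μf p ≤ 2 * B ^ 2 := by
    intro p hp
    obtain ⟨h1, h2, h3⟩ := hNp' p hp
    obtain ⟨i, j, hij⟩ := hg4 p h3
    refine hij.trans ?_
    obtain ⟨_, hx, _⟩ := mem_testSetS.mp h1
    obtain ⟨_, hy, _⟩ := mem_testSetS.mp h2
    unfold mn
    push_cast
    refine (abs_sub _ _).trans ?_
    rw [abs_mul, abs_mul]
    have e1 : |(p.1 i : ℝ)| * |(p.2 j : ℝ)| ≤ B * B :=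
      mul_le_mul (hx.1 i) (hy.1 j) (abs_nonneg _) hB0.le
    have e2 : |(p.1 j : ℝ)| * |(p.2 i : ℝ)| ≤ B * B :=
      mul_le_mul (hx.1 j) (hy.1 i) (abs_nonneg _) hB0.le
    linarith [sq B]
  have hsum : ∑ p ∈ X' ×ˢ X', ∏ j, (c2 (e j) A (u j) p : ℝ) = ∑ p ∈ Pr, F p +
      (∑ p ∈ Gd, F p + ∑ p ∈ Tl, F p) := by
    simp only [hFp]
    rw [← Finset.sum_filter_add_sum_filter_not (X' ×ˢ X') (fun p => ∀ i j, mn p.1 p.2 i j = 0)]
    congr 1
    rw [← Finset.sum_filter_add_sum_filter_not _ (fun p => B ^ 2 * |(gf p : ℝ)| ≤ T * μf p)]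
  -- proportional pairs
  have hPrb : ∑ p ∈ Pr, F p ≤
      2 * C₂ * (sysZ ι e (2 * A)).card * X'.card / (∏ j, (A * B ^ (e j + 2))) := by
    have h1 : ∀ p ∈ Pr, F p ≤
        C₂ * (sysZ ι e (2 * A)).card / (∏ j, (A * B ^ (e j + 2))) := by
      intro p hp
      rw [hPr, Finset.mem_filter, Finset.mem_product] at hp
      obtain ⟨hx1, hx2, hx3, hx4⟩ := mem_testSetS.mp hp.1.1
      rw [hC₂, card_sysZ, ← hFp p]
      push_cast
      rw [← Finset.prod_mul_distrib, ← Finset.prod_div_distrib]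
      apply Finset.prod_le_prod (fun j _ => Nat.cast_nonneg _)
      intro j _
      have hAj := hApj j
      have key := cnt1_le (A := A) (e j + 1) hx4 hx2 hB ha (by rw [hk, hcj]; exact haA j) (u j p.1)
      rw [hk, hcj] at key
      have h2 : c2 (e j) A (u j) p ≤ ((formsZ ι (e j + 1 + 1) A).filter
          (fun f => MvPolynomial.eval p.1 f = u j p.1)).card := by
        unfold c2
        apply Finset.card_le_card
        intro f hf
        rw [Finset.mem_filter] at hf ⊢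
        exact ⟨hf.1, hf.2.1⟩
      rw [le_div_iff₀ (by positivity)]
      have h3 : (c2 (e j) A (u j) p : ℝ) ≤ (((formsZ ι (e j + 1 + 1) A).filter
          (fun f => MvPolynomial.eval p.1 f = u j p.1)).card : ℝ) := by exact_mod_cast h2
      exact (mul_le_mul_of_nonneg_right h3 (by positivity)).trans key
    have h4 : (Pr.card : ℝ) ≤ 2 * X'.card := by
      have hmaps : ∀ p ∈ Pr, p.1 ∈ X' := by
        intro p hp
        rw [hPr, Finset.mem_filter, Finset.mem_product] at hp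
        exact hp.1.1
      have h5 : Pr.card ≤ 2 * X'.card := by
        apply Finset.card_le_mul_card_image_of_maps_to hmaps 2
        intro x hx
        obtain ⟨hx1, hx2, hx3, hx4⟩ := mem_testSetS.mp hx
        have := prop_card hx3 hB0 hx2 ((Pr.filter (fun p => p.1 = x)).image (fun p => p.2)) ?_
        · rw [Finset.card_image_of_injOn] at this
          · exact this
          · intro p hp p' hp' heq
            have e1 := (Finset.mem_filter.mp (Finset.mem_coe.mp hp)).2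
            have e2 := (Finset.mem_filter.mp (Finset.mem_coe.mp hp')).2
            exact Prod.ext (e1.trans e2.symm) heq
        · intro y hy
          rw [Finset.mem_image] at hy
          obtain ⟨p, hp, rfl⟩ := hy
          rw [Finset.mem_filter, hPr, Finset.mem_filter, Finset.mem_product] at hp
          refine ⟨(mem_testSetS.mp hp.1.1.2).2.2.1, ?_⟩
          rw [← hp.2]
          exact hp.1.2
      exact_mod_cast h5
    refine (Finset.sum_le_sum h1).trans ?_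
    rw [Finset.sum_const, nsmul_eq_mul]
    have hprod : 0 ≤ ∏ j : Fin s, (A * B ^ (e j + 2)) :=
      Finset.prod_nonneg (fun j _ => by have := hApj j; positivity)
    have h6 := mul_le_mul_of_nonneg_right h4
      (div_nonneg (mul_nonneg hC₂0.le (Nat.cast_nonneg _)) hprod :
        0 ≤ C₂ * (sysZ ι e (2 * A)).card / (∏ j, (A * B ^ (e j + 2))))
    refine h6.trans (le_of_eq ?_)
    ring
  -- good pairs
  have hGdb : ∑ p ∈ Gd, F p ≤ (sysZ ι e A).card * E * (1 + 1 / w) := by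
    rw [hF]
    apply good_sumS e hw ha haB (by positivity : 0 < 1 / T) hLg u hu hK0 hΔ hΔK hA hR₂ hE
      hL1 hL2 hED
    intro p hp
    rw [hGd, Finset.mem_filter] at hp
    obtain ⟨h1, h2, h3⟩ := hNp' p hp.1
    refine ⟨h1, h2, ?_⟩
    have hgne := hg0 p h3
    have hg1' : 1 ≤ |(gf p : ℝ)| := by
      have := Int.one_le_abs hgne
      exact_mod_cast this
    have hgN : (gf p).natAbs ≤ N := by
      have h4 : |(gf p : ℝ)| ≤ 2 * T := by
        have h5 := hp.2.trans (mul_le_mul_of_nonneg_left (hμB p hp.1) hT0.le)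
        have h6 : B ^ 2 * |(gf p : ℝ)| ≤ B ^ 2 * (2 * T) := by linarith
        exact le_of_mul_le_mul_left h6 (by positivity)
      have h5 : (((gf p).natAbs : ℕ) : ℝ) ≤ (N : ℝ) := by
        rw [Nat.cast_natAbs, Int.cast_abs]
        exact h4.trans hTN
      exact_mod_cast h5
    have hgN2 : (gf p).natAbs ≤ 2 ^ N := hgN.trans (Nat.lt_two_pow_self).le
    obtain ⟨D, hD1, hD2, hD3, hD4⟩ := exists_coprime_part w N (Int.natAbs_ne_zero.mpr hgne) hgN2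
    refine ⟨D, gf p, hgne, hg1 p h3, hg2 p h3, ?_, hD1, ?_, ?_, ?_, hD4⟩
    · obtain ⟨i, j, hij⟩ := hg4 p h3
      refine ⟨i, j, le_trans ?_ hij⟩
      rw [one_div, inv_mul_le_iff₀ hT0]
      refine le_trans ?_ hp.2
      exact le_mul_of_one_le_right (by positivity) hg1'
    · exact (Nat.le_of_dvd (Int.natAbs_pos.mpr hgne) hD2).trans hgN
    · exact Int.natCast_dvd.mpr hD2
    · rw [← hKdef] at hD3
      have := Int.natAbs_dvd_natAbs (a := gf p) (b := ((K * D : ℕ) : ℤ))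
      rw [Int.natAbs_natCast] at this
      have h7 := this.mp hD3
      push_cast at h7
      exact h7
  -- tail pairs
  have hTlb : ∑ p ∈ Tl, F p ≤
      C₁ * C₀ * (sysZ ι e (3 * A)).card * B ^ (2 * k) /
        ((∏ j, (A ^ 2 * B ^ (2 * e j + 4))) * Real.sqrt T) := by
    have h1 : ∀ p ∈ Tl, F p ≤
        C₁ * (sysZ ι e (3 * A)).card / (∏ j, (A ^ 2 * B ^ (2 * e j + 4))) *
          (B ^ 2 * |(gf p : ℝ)| / μf p) ^ s := by
      intro p hp
      rw [hTl, Finset.mem_filter] at hp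
      obtain ⟨h1, h2, h3⟩ := hNp' p hp.1
      obtain ⟨hx1, hx2, hx3, hx4⟩ := mem_testSetS.mp h1
      obtain ⟨hy1, hy2, hy3, hy4⟩ := mem_testSetS.mp h2
      have hμ0 := hg3 p h3
      have hpow : (B ^ 2 * |(gf p : ℝ)| / μf p) ^ s =
          ∏ _j : Fin s, (B ^ 2 * |(gf p : ℝ)| / μf p) := by
        rw [Finset.prod_const, Finset.card_univ, Fintype.card_fin]
      rw [hC₁, card_sysZ, ← hFp p, hpow]
      push_cast
      rw [← Finset.prod_mul_distrib, ← Finset.prod_div_distrib, ← Finset.prod_mul_distrib]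
      apply Finset.prod_le_prod (fun j _ => Nat.cast_nonneg _)
      intro j _
      have hAj := hApj j
      have key := cnt2_le (A := A) (e j) hx4 hx2 hx3 hy4 hy2 ha haB (hg0 p h3) (hg1 p h3)
        (hg2 p h3) hμ0 (hg4 p h3) hLg (by rw [hk, hcj]; exact haA j)
        (by rw [hk, hc'j]; exact haA2 j) (u j p.1) (u j p.2)
      rw [hk, hcj, hc'j] at key
      rw [← le_div_iff₀ (by positivity)] at key
      exact key.trans (le_of_eq (tail_alg (e j) hAj.ne' hB0.ne' hμ0.ne'))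
    refine (Finset.sum_le_sum h1).trans ?_
    rw [← Finset.mul_sum]
    have h2 := htail B T hB hT Tl (fun p => B ^ 2 * |(gf p : ℝ)| / μf p) (by
      intro p hp
      rw [hTl, Finset.mem_filter] at hp
      obtain ⟨h1, h2, h3⟩ := hNp' p hp.1
      obtain ⟨hx1, hx2, hx3, hx4⟩ := mem_testSetS.mp h1
      obtain ⟨hy1, hy2, hy3, hy4⟩ := mem_testSetS.mp h2
      have hμ0 := hg3 p h3
      refine ⟨hx2.1, hy2.1, h3, ?_, gf p, μf p, hg1 p h3, hg5 p h3, ?_⟩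
      · rw [lt_div_iff₀ hμ0]
        exact not_le.mp hp.2
      · rw [div_mul_cancel₀ _ hμ0.ne'])
    rw [hk] at h2
    have hprod : 0 ≤ ∏ j : Fin s, (A ^ 2 * B ^ (2 * e j + 4)) :=
      Finset.prod_nonneg (fun j _ => by have := hApj j; positivity)
    have h3 := mul_le_mul_of_nonneg_left h2
      (div_nonneg (mul_nonneg hC₁0.le (Nat.cast_nonneg _)) hprod :
        0 ≤ C₁ * ((sysZ ι e (3 * A)).card : ℝ) /
        (∏ j, (A ^ 2 * B ^ (2 * e j + 4))))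
    refine h3.trans (le_of_eq ?_)
    have hsT : 0 < Real.sqrt T := Real.sqrt_pos.mpr hT0
    rw [div_mul_div_comm]
    congr 1
    ring
  rw [hsum]
  have hprod1 : 0 ≤ (∏ j : Fin s, (A ^ 2 * B ^ (2 * e j + 4))) * Real.sqrt T :=
    mul_nonneg (Finset.prod_nonneg (fun j _ => by have := hApj j; positivity))
      (Real.sqrt_nonneg _)
  have hprod2 : 0 ≤ ∏ j : Fin s, (A * B ^ (e j + 2)) :=
    Finset.prod_nonneg (fun j _ => by have := hApj j; positivity)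
  have hs1 : C₁ * C₀ * (sysZ ι e (3 * A)).card * B ^ (2 * k) /
        ((∏ j, (A ^ 2 * B ^ (2 * e j + 4))) * Real.sqrt T) ≤
        (C₁ * C₀ + 2 * C₂) * (sysZ ι e (3 * A)).card * B ^ (2 * k) /
        ((∏ j, (A ^ 2 * B ^ (2 * e j + 4))) * Real.sqrt T) := by
    apply div_le_div_of_nonneg_right _ hprod1
    apply mul_le_mul_of_nonneg_right _ (pow_nonneg hB0.le _)
    apply mul_le_mul_of_nonneg_right _ (Nat.cast_nonneg _)
    linarith
  have hs2 : 2 * C₂ * (sysZ ι e (2 * A)).card * X'.card / (∏ j, (A * B ^ (e j + 2))) ≤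
      (C₁ * C₀ + 2 * C₂) * (sysZ ι e (2 * A)).card * X'.card /
        (∏ j, (A * B ^ (e j + 2))) := by
    apply div_le_div_of_nonneg_right _ hprod2
    apply mul_le_mul_of_nonneg_right _ (Nat.cast_nonneg _)
    apply mul_le_mul_of_nonneg_right _ (Nat.cast_nonneg _)
    have : 0 < C₁ * C₀ := mul_pos hC₁0 hC₀
    linarith
  linarith

end Pool.Agent.Y716.C
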