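import Pool.Agent.Y716.C.Smooth
import Pool.Agent.Y604.Z1.Main

/-!
# Zero-cycles of degree one on intersections of two quadrics
-/

namespace Pool.Agent.Y716.C

open Filter Topology Pool.Agent.Y697.C13

/-- a zero-cycle of degree one over `K` -/
def ZC {ι : Type*} {s : ℕ} (q : Fin s → MvPolynomial ι ℤ) (K : Type) [Field K] : Prop :=
  ∃ (t : ℕ) (L : Fin t → Type) (_ : ∀ i, Field (L i)) (_ : ∀ i, Algebra K (L i)) (m : Fin t → ℤ),
    (∀ i, FiniteDimensional K (L i)) ∧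
    (∀ i, ∃ x : ι → L i, x ≠ 0 ∧ ∀ j, MvPolynomial.aeval x (q j) = 0) ∧
    ∑ i, m i * (Module.finrank K (L i) : ℤ) = 1

theorem zc_iff {ι : Type*} [Fintype ι] {q : Fin 2 → MvPolynomial ι ℤ}
    (hq : ∀ j, (q j).IsHomogeneous 2) (K : Type) [Field K] [CharZero K] :
    ZC q K ↔ ∃ x : ι → K, x ≠ 0 ∧ ∀ j, MvPolynomial.aeval x (q j) = 0 := by
  constructor
  · rintro ⟨t, L, hF, hA, m, hfd, hx, hsum⟩
    have h1 : ∃ i, Odd (Module.finrank K (L i)) := by
      by_contra hcon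
      push Not at hcon
      have h2 : Even (∑ i, m i * (Module.finrank K (L i) : ℤ)) := by
        apply Finset.even_sum
        intro i _
        have h3 : Even (Module.finrank K (L i)) := Nat.not_odd_iff_even.mp (hcon i)
        exact Even.mul_left (by exact_mod_cast h3) _
      rw [hsum] at h2
      exact Int.not_even_one h2
    obtain ⟨i, hi⟩ := h1
    obtain ⟨x, hx0, hx⟩ := hx i
    haveI := hfd i
    exact Pool.Agent.Y604.Z1.common_zero_of_odd ι K (L i) hi q hq x hx0 hx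
  · rintro ⟨x, hx0, hx⟩
    refine ⟨1, fun _ => K, fun _ => inferInstance, fun _ => inferInstance, fun _ => 1,
      fun _ => inferInstance, fun _ => ⟨x, hx0, hx⟩, ?_⟩
    simp

/-- Almost all smooth intersections of two quadrics with zero-cycles of degree one at all places
have a rational point. -/
theorem zc_smooth (n : ℕ) (hn : 5 ≤ n) : Tendsto (fun H : ℕ =>
      (({q : Fin 2 → MvPolynomial (Fin (n + 1)) ℤ | (∀ j, (q j).IsHomogeneous 2 ∧
          ∀ m, |(q j).coeff m| ≤ (H : ℤ)) ∧ SmoothS q ∧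
          ∃ x : Fin (n + 1) → ℚ, x ≠ 0 ∧ ∀ j, MvPolynomial.aeval x (q j) = 0} : Set _).ncard : ℝ) /
      (({q : Fin 2 → MvPolynomial (Fin (n + 1)) ℤ | (∀ j, (q j).IsHomogeneous 2 ∧
          ∀ m, |(q j).coeff m| ≤ (H : ℤ)) ∧ SmoothS q ∧
          ZC q ℝ ∧ ∀ (p : ℕ) [Fact p.Prime], ZC q ℚ_[p]} : Set _).ncard : ℝ))
      atTop (𝓝 1) := by
  have h1 := hp_smooth (Fin (n + 1)) (s := 2) (by norm_num)
    (by rw [Fintype.card_fin]; omega) (fun _ => 0) (by rw [Fintype.card_fin]; simp; omega)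
  have h2 : ∀ H : ℕ, {q : Fin 2 → MvPolynomial (Fin (n + 1)) ℤ | (∀ j, (q j).IsHomogeneous 2 ∧
          ∀ m, |(q j).coeff m| ≤ (H : ℤ)) ∧ SmoothS q ∧
          ZC q ℝ ∧ ∀ (p : ℕ) [Fact p.Prime], ZC q ℚ_[p]} =
      {q : Fin 2 → MvPolynomial (Fin (n + 1)) ℤ | (∀ j, (q j).IsHomogeneous 2 ∧
          ∀ m, |(q j).coeff m| ≤ (H : ℤ)) ∧ SmoothS q ∧ ElsS q} := by
    intro H
    ext q
    refine and_congr_right (fun hq => and_congr_right (fun _ => ?_))
    have hq2 : ∀ j, (q j).IsHomogeneous 2 := fun j => (hq j).1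
    unfold ElsS
    refine and_congr (zc_iff hq2 ℝ) (forall_congr' fun p => forall_congr' fun hp => ?_)
    exact zc_iff hq2 ℚ_[p]
  simp only [h2]
  exact h1

end Pool.Agent.Y716.C
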